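import Mathlib
import Pool.Agent.TH170.MF.Mean

/-!
# The inequality for the products of the cosines with weights
-/

set_option linter.unusedSectionVars false
set_option linter.unusedVariables false

namespace Pool.Agent.TH170.FW

open Real Finset Pool.Agent.TH170.MF

variable {G X : Type*} [Group G] [Fintype G] [MulAction G X] [Fintype X] [DecidableEq X]
  [MulAction.IsPretransitive G X]

variable (N : ℕ) [NeZero N]

/-- The inequality for the products of the cosines with weights. -/
theorem sum_prod_le {c : X → X} (hcc : ∀ x, c (c x) = x) {T : Finset X}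
    (hT : ∀ x, x ∈ T ↔ c x ∉ T) {κ : Type*} [Fintype κ] [DecidableEq κ] [Nonempty κ] (a : κ → X)
    (μ μ' : X → ZMod N) (hμ : ∀ x, μ' x * μ x = 1) (hμc : ∀ x, μ (c x) = μ x)
    (W : κ → X → ZMod N) (hodd : ∀ k x, W k (c x) = - W k x)
    (hone : ∀ k l, W k (a l) = if k = l then 1 else 0)
    (hinv : ∀ (γ : G) k x, W k (γ • x) = ∑ l, W k (γ • a l) * W l x) :
    ∑ v : κ → ZMod N, ∏ x ∈ T, cw N (μ x * ∑ k, v k * W k x) ≤
      (∑ t : ZMod N, cw N t ^ ((T.card : ℝ) / Fintype.card κ)) ^ Fintype.card κ := by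
  classical
  obtain ⟨k₀⟩ := ‹Nonempty κ›
  set x₀ : X := a k₀ with hx₀
  set m : ℕ := (univ.filter (fun γ : G => γ • x₀ = x₀)).card with hm'
  have hm : m * Fintype.card X = Fintype.card G := card_fiber x₀ x₀
  have hG : 0 < Fintype.card G := Fintype.card_pos
  have hm0 : 0 < m := by
    rcases Nat.eq_zero_or_pos m with h | h
    · rw [h, zero_mul] at hm
      omega
    · exact h
  have hcardX : Fintype.card X = 2 * T.card := by
    have h1 := sum_transversal hcc hT (fun _ : X => 1)
    rw [sum_const, card_univ, smul_eq_mul, mul_one, sum_const, smul_eq_mul] at h1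
    rw [h1]
    ring
  have hT0 : 0 < T.card := by
    have : 0 < Fintype.card X := Fintype.card_pos_iff.2 ⟨x₀⟩
    omega
  set d : ℕ := Fintype.card κ with hd
  have hd0 : 0 < d := Fintype.card_pos_iff.2 ⟨k₀⟩
  set q : ℝ := (T.card : ℝ) / d with hq
  -- the value at one vector
  have hone' : ∀ v : κ → ZMod N, ∏ x ∈ T, cw N (μ x * ∑ k, v k * W k x) ≤
      ∑ γ : G, (1 / (Fintype.card G : ℝ)) * ∏ k, cw N (μ (γ • a k) * ∑ l, v l * W l (γ • a k)) ^ q := by
    intro v
    set f : X → ℝ := fun x => cw N (μ x * ∑ k, v k * W k x) with hf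
    have hf0 : ∀ x, 0 ≤ f x := fun x => cw_nonneg N _
    have hfc : ∀ x, f (c x) = f x := by
      intro x
      simp only [hf]
      rw [← cw_neg, hμc, ← mul_neg]
      congr 2
      rw [← sum_neg_distrib]
      refine sum_congr rfl fun k _ => ?_
      rw [hodd]
      ring
    set P : ℝ := ∏ x ∈ T, f x with hP
    have hP0 : 0 ≤ P := prod_nonneg fun x _ => hf0 x
    have h1 : ∏ x, f x = P ^ 2 := by
      rw [prod_transversal hcc hT, hP, ← prod_pow]
      exact prod_congr rfl fun x _ => by rw [hfc, pow_two]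
    have h2 : ∏ γ : G, ∏ k, f (γ • a k) = P ^ (2 * m * d) := by
      rw [prod_comm]
      rw [prod_congr rfl fun k _ => prod_orbit f (a k) m hm, prod_const, card_univ, h1]
      rw [← pow_mul, ← pow_mul, mul_assoc]
    have h3 := geom_mean_le_arith_mean_weighted (univ : Finset G)
      (fun _ => 1 / (Fintype.card G : ℝ)) (fun γ => ∏ k, f (γ • a k) ^ q)
      (fun _ _ => by positivity)
      (by rw [sum_const, card_univ, nsmul_eq_mul]; field_simp)
      (fun γ _ => prod_nonneg fun k _ => rpow_nonneg (hf0 _) _)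
    refine le_trans (le_of_eq ?_) h3
    have h4 : ∀ γ : G, (∏ k, f (γ • a k) ^ q) ^ (1 / (Fintype.card G : ℝ)) =
        (∏ k, f (γ • a k)) ^ (q * (1 / (Fintype.card G : ℝ))) := by
      intro γ
      rw [Real.finsetProd_rpow _ _ (fun k _ => hf0 _),
        ← rpow_mul (prod_nonneg fun k _ => hf0 _)]
    rw [prod_congr rfl fun γ _ => h4 γ, Real.finsetProd_rpow _ _
      (fun γ _ => prod_nonneg fun k _ => hf0 _), h2]
    have h5 : q * (1 / (Fintype.card G : ℝ)) = ((2 * m * d : ℕ) : ℝ)⁻¹ := by
      have h6 := exp_identity (T := (T.card : ℝ)) (d := (d : ℝ)) (m := (m : ℝ))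
        (Nat.cast_ne_zero.2 hT0.ne') (Nat.cast_ne_zero.2 hd0.ne') (Nat.cast_ne_zero.2 hm0.ne')
      have h7 : (Fintype.card G : ℝ) = m * (2 * T.card) := by
        rw [← hm, hcardX]
        push_cast
        rfl
      rw [h7, h6]
      push_cast
      rfl
    have h8 : 2 * m * d ≠ 0 := mul_ne_zero (mul_ne_zero two_ne_zero hm0.ne') hd0.ne'
    rw [h5, Real.pow_rpow_inv_natCast hP0 h8]
  refine (sum_le_sum fun v _ => hone' v).trans ?_
  rw [sum_comm]
  have h1 : ∀ γ : G, ∑ v : κ → ZMod N, (1 / (Fintype.card G : ℝ)) *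
      ∏ k, cw N (μ (γ • a k) * ∑ l, v l * W l (γ • a k)) ^ q =
      (1 / (Fintype.card G : ℝ)) * (∑ t : ZMod N, cw N t ^ q) ^ d := by
    intro γ
    rw [← mul_sum]
    congr 1
    let A : G → (κ → ZMod N) → (κ → ZMod N) := fun γ v k => ∑ l, v l * W l (γ • a k)
    have hA : ∀ v, A γ⁻¹ (A γ v) = v := by
      intro v
      funext k
      simp only [A, sum_mul]
      rw [sum_comm]
      have h2 : ∀ l, ∑ l', v l * W l (γ • a l') * W l' (γ⁻¹ • a k) =
          v l * (if l = k then 1 else 0) := by
        intro l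
        have h3 := hinv γ l (γ⁻¹ • a k)
        rw [smul_inv_smul, hone] at h3
        rw [h3, mul_sum]
        exact sum_congr rfl fun l' _ => by ring
      rw [sum_congr rfl fun l _ => h2 l]
      simp
    have hbij : Function.Bijective (fun v : κ → ZMod N => fun k => μ (γ • a k) * A γ v k) := by
      rw [← Finite.injective_iff_bijective]
      intro v w h
      apply Function.LeftInverse.injective hA (a₁ := v) (a₂ := w)
      funext k
      have h1 := congrFun h k
      beta_reduce at h1
      have h2 := congrArg (fun z => μ' (γ • a k) * z) h1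
      beta_reduce at h2
      rwa [← mul_assoc, ← mul_assoc, hμ, one_mul, one_mul] at h2
    have h2 : ∑ v : κ → ZMod N, ∏ k, cw N (μ (γ • a k) * ∑ l, v l * W l (γ • a k)) ^ q =
        ∑ v : κ → ZMod N, (fun u : κ → ZMod N => ∏ k, cw N (u k) ^ q)
          (fun k => μ (γ • a k) * A γ v k) := rfl
    rw [h2, Function.Bijective.sum_comp hbij (fun u : κ → ZMod N => ∏ k, cw N (u k) ^ q)]
    rw [← Fintype.piFinset_univ, ← prod_univ_sum (t := fun _ : κ => (univ : Finset (ZMod N)))
      (f := fun _ t => cw N t ^ q), prod_const, card_univ]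
  rw [sum_congr rfl fun γ _ => h1 γ, sum_const, card_univ, nsmul_eq_mul, ← mul_assoc]
  rw [mul_one_div_cancel (by positivity), one_mul]

end Pool.Agent.TH170.FW
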