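import Mathlib
import Pool.Agent.TH170.FW.Mean
import Pool.Agent.TH170.MF.Count
import Pool.Agent.TH170.GC.Mod

/-!
# The number of odd sign functions `f` with `f M` orthogonal to an invariant space
-/

set_option linter.unusedSectionVars false
set_option linter.unusedVariables false

namespace Pool.Agent.TH170.FW

open Real Finset Module Pool.Agent.TH170.MF Pool.Agent.TH170.GC

/-- The odd sign functions `f` such that `f M` is orthogonal to `S`. -/
def orthSignsW {X : Type*} [Fintype X] (M : X → ℤ) (c : X → X) (S : Submodule ℚ (X → ℚ)) :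
    Set (X → ℤ) :=
  {f | OddSign c f ∧ ∀ s ∈ S, ∑ x, ((f x * M x : ℤ) : ℚ) * s x = 0}

section orth

variable {G X : Type*} [Group G] [Fintype G] [MulAction G X] [Fintype X] [DecidableEq X]
  [MulAction.IsPretransitive G X]

theorem ncard_le_card (M : X → ℤ) {c : X → X} (hcc : ∀ x, c (c x) = x) {T : Finset X}
    (hT : ∀ x, x ∈ T ↔ c x ∉ T) (S : Submodule ℚ (X → ℚ)) (Q : Finset (T → ℤ))
    (hQ : ∀ f ∈ orthSignsW M c S, (fun x : T => f x) ∈ Q) : (orthSignsW M c S).ncard ≤ Q.card := by
  classical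
  rw [← Set.ncard_coe_finset Q]
  refine Set.ncard_le_ncard_of_injOn (fun f => fun x : T => f x) ?_ ?_ (Finset.finite_toSet Q)
  · intro f hf
    exact hQ f hf
  · intro f hf f' hf' h
    funext x
    by_cases hx : x ∈ T
    · exact congrFun h ⟨x, hx⟩
    · have hx' : c x ∈ T := by
        rw [hT, hcc]
        exact hx
      have h1 : f (c x) = f' (c x) := congrFun h ⟨c x, hx'⟩
      rw [hf.1.2, hf'.1.2] at h1
      exact neg_injective h1

/-- The bound for one modulus. -/
theorem ncard_le_mod (M : X → ℤ) {c : X → X} (hMc : ∀ x, M (c x) = M x) (hcc : ∀ x, c (c x) = x) {T : Finset X}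
    (hT : ∀ x, x ∈ T ↔ c x ∉ T) (S : Submodule ℚ (X → ℚ)) (hS : Invariant G S)
    (ho : AllOdd c S) {κ : Type*} [Fintype κ] [DecidableEq κ] [Nonempty κ] (a : κ → X)
    (e : κ → X → ℚ) (he : ∀ k, e k ∈ S) (hrep : ∀ s ∈ S, ∀ x, s x = ∑ k, s (a k) * e k x)
    (hone : ∀ k l, e k (a l) = if k = l then 1 else 0) (D : ℕ) (E : κ → X → ℤ)
    (hE : ∀ k x, (E k x : ℚ) = D * e k x) (hMD : ∀ x, M x ∣ (D : ℤ)) (j : ℕ) :
    ((orthSignsW M c S).ncard : ℝ) ≤ 2 ^ T.card *
      (1 / ((2 * D * j + 1 : ℕ) : ℝ) + √(2 * Fintype.card κ / (π * T.card))) ^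
        Fintype.card κ := by
  classical
  set N : ℕ := 2 * D * j + 1 with hN
  have hNz : NeZero N := ⟨by omega⟩
  have hN0 : (0 : ℝ) < N := Nat.cast_pos.2 (by omega)
  set u : ZMod N := -(2 * j : ZMod N) with hu
  have huD : u * (D : ZMod N) = 1 := by
    have h1 : ((2 * D * j + 1 : ℕ) : ZMod N) = 0 := ZMod.natCast_self N
    push_cast at h1
    rw [hu]
    linear_combination -h1
  let W : κ → X → ZMod N := fun k x => u * (E k x : ZMod N)
  have hodd : ∀ k x, W k (c x) = - W k x := by
    intro k x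
    have h1 : E k (c x) = - E k x := by
      have h2 : (E k (c x) : ℚ) = ((- E k x : ℤ) : ℚ) := by
        push_cast
        rw [hE, hE, ho (e k) (he k)]
        ring
      exact_mod_cast h2
    simp only [W]
    rw [h1]
    push_cast
    ring
  have honeW : ∀ k l, W k (a l) = if k = l then 1 else 0 := by
    intro k l
    have h1 : E k (a l) = if k = l then (D : ℤ) else 0 := by
      have h2 : (E k (a l) : ℚ) = ((if k = l then (D : ℤ) else 0 : ℤ) : ℚ) := by
        rw [hE, hone]
        split_ifs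
        · push_cast
          ring
        · push_cast
          ring
      exact_mod_cast h2
    simp only [W]
    rw [h1]
    split_ifs
    · push_cast
      exact huD
    · push_cast
      ring
  have hinv : ∀ (γ : G) k x, W k (γ • x) = ∑ l, W k (γ • a l) * W l x := by
    intro γ k x
    have h1 : e k (γ • x) = ∑ l, e k (γ • a l) * e l x :=
      hrep (fun y => e k (γ • y)) (hS γ (e k) (he k)) x
    have h2 : (D : ℤ) * E k (γ • x) = ∑ l, E k (γ • a l) * E l x := by
      have h3 : (((D : ℤ) * E k (γ • x) : ℤ) : ℚ) = ((∑ l, E k (γ • a l) * E l x : ℤ) : ℚ) := by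
        push_cast
        rw [hE, h1, mul_sum, mul_sum]
        refine sum_congr rfl fun l _ => ?_
        rw [hE, hE]
        ring
      exact_mod_cast h3
    have h3 := congrArg (fun z : ℤ => (z : ZMod N)) h2
    push_cast at h3
    simp only [W]
    have h4 : ∑ l, u * (E k (γ • a l) : ZMod N) * (u * (E l x : ZMod N)) =
        u * u * ∑ l, (E k (γ • a l) : ZMod N) * (E l x : ZMod N) := by
      rw [mul_sum]
      exact sum_congr rfl fun l _ => by ring
    rw [h4, ← h3]
    linear_combination (-(u * (E k (γ • x) : ZMod N))) * huD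
  choose M' hM' using hMD
  have hunit : ∀ x, (u * (M' x : ZMod N)) * (M x : ZMod N) = 1 := by
    intro x
    rw [← huD]
    have h1 := congrArg (fun z : ℤ => (z : ZMod N)) (hM' x)
    push_cast at h1
    rw [h1]
    ring
  -- counting
  have hcount := fourier_count N (κ := κ) (T := T) (fun k x => (M x : ZMod N) * W k x)
  have hle := ncard_le_card M hcc hT S
    ((signs T).filter (fun ε => ∀ k, ∑ x : T, ((ε x : ℤ) : ZMod N) *
      ((M x : ZMod N) * W k x) = 0)) (by
    intro f hf
    rw [mem_filter]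
    refine ⟨(mem_signs _).2 fun x => hf.1.1 x, fun k => ?_⟩
    have h1 := hf.2 (e k) (he k)
    rw [sum_transversal hcc hT] at h1
    have h2 : ∀ x ∈ T, ((f x * M x : ℤ) : ℚ) * e k x + ((f (c x) * M (c x) : ℤ) : ℚ) * e k (c x) =
        2 * (((f x * M x : ℤ) : ℚ) * e k x) := by
      intro x _
      rw [hf.1.2, ho (e k) (he k), hMc]
      push_cast
      ring
    rw [sum_congr rfl h2, ← mul_sum] at h1
    have h3 : ∑ x ∈ T, ((f x * M x : ℤ) : ℚ) * e k x = 0 :=
      (mul_eq_zero.1 h1).resolve_left two_ne_zero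
    have h4 : ∑ x ∈ T, (f x * M x) * E k x = 0 := by
      have h5 : ((∑ x ∈ T, (f x * M x) * E k x : ℤ) : ℚ) = 0 := by
        have h6 : ∀ x ∈ T, (((f x * M x) * E k x : ℤ) : ℚ) =
            D * (((f x * M x : ℤ) : ℚ) * e k x) := by
          intro x _
          push_cast
          rw [hE]
          ring
        rw [Int.cast_sum, sum_congr rfl h6, ← mul_sum, h3, mul_zero]
      exact_mod_cast h5
    have h5 := congrArg (fun z : ℤ => (z : ZMod N)) h4
    push_cast at h5
    have h6 : ∑ x : T, ((f x : ℤ) : ZMod N) * ((M x : ZMod N) * W k x) =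
        u * ∑ x ∈ T, ((f x : ZMod N) * (M x : ZMod N)) * (E k x : ZMod N) := by
      rw [mul_sum, ← sum_coe_sort T (fun x => u * (((f x : ZMod N) * (M x : ZMod N)) *
        (E k x : ZMod N)))]
      refine sum_congr rfl fun x _ => ?_
      simp only [W]
      ring
    rw [h6, h5, mul_zero])
  have hsum := sum_prod_le (G := G) N hcc hT a (fun x => (M x : ZMod N))
    (fun x => u * (M' x : ZMod N)) hunit (fun x => by rw [hMc]) W hodd honeW hinv
  have hprod : ∀ v : κ → ZMod N, ∏ x : T, cw N (∑ k, v k * ((M x : ZMod N) * W k x)) =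
      ∏ x ∈ T, cw N ((M x : ZMod N) * ∑ k, v k * W k x) := fun v => by
    rw [← prod_coe_sort T (fun x => cw N ((M x : ZMod N) * ∑ k, v k * W k x))]
    refine prod_congr rfl fun x _ => ?_
    rw [mul_sum]
    congr 1
    exact sum_congr rfl fun k _ => by ring
  rw [sum_congr rfl fun v _ => hprod v, Fintype.card_coe] at hcount
  have hT0 : 0 < T.card := by
    obtain ⟨k₀⟩ := ‹Nonempty κ›
    by_cases h : a k₀ ∈ T
    · exact card_pos.2 ⟨_, h⟩
    · refine card_pos.2 ⟨c (a k₀), ?_⟩
      rw [hT, hcc]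
      exact h
  have hκ0 : 0 < Fintype.card κ := Fintype.card_pos
  have hcw := sum_cw_le N ⟨D * j, by rw [hN]; ring⟩
    (a := (T.card : ℝ) / Fintype.card κ) (div_pos (Nat.cast_pos.2 hT0) (Nat.cast_pos.2 hκ0))
  have hpow : (∑ t : ZMod N, cw N t ^ ((T.card : ℝ) / Fintype.card κ)) ^ Fintype.card κ ≤
      (1 + N * √(2 / (π * ((T.card : ℝ) / Fintype.card κ)))) ^ Fintype.card κ :=
    pow_le_pow_left₀ (sum_nonneg fun t _ => rpow_nonneg (cw_nonneg N t) _) hcw _
  have h1 : ((orthSignsW M c S).ncard : ℝ) * N ^ Fintype.card κ ≤ 2 ^ T.card *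
      (1 + N * √(2 / (π * ((T.card : ℝ) / Fintype.card κ)))) ^ Fintype.card κ := by
    refine le_trans ?_ (hcount.trans (mul_le_mul_of_nonneg_left (hsum.trans hpow)
      (by positivity)))
    exact mul_le_mul_of_nonneg_right (Nat.cast_le.2 hle) (by positivity)
  have h2 : 2 / (π * ((T.card : ℝ) / Fintype.card κ)) =
      2 * Fintype.card κ / (π * T.card) :=
    ratio_identity pi_pos.ne' (Nat.cast_ne_zero.2 hT0.ne') (Nat.cast_ne_zero.2 hκ0.ne')
  rw [h2] at h1
  rw [← mul_le_mul_iff_left₀ (pow_pos hN0 (Fintype.card κ)), mul_assoc, ← mul_pow]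
  refine h1.trans (le_of_eq ?_)
  rw [factor_identity (A := √(2 * (Fintype.card κ : ℝ) / (π * (T.card : ℝ)))) hN0.ne']

/-- **The number of the odd sign functions `f` with `f M` orthogonal to an invariant space.** -/
theorem ncard_orthSignsW_le (M : X → ℤ) (hM0 : ∀ x, M x ≠ 0) {c : X → X}
    (hMc : ∀ x, M (c x) = M x) (hcc : ∀ x, c (c x) = x) (hne : ∀ x, c x ≠ x)
    (S : Submodule ℚ (X → ℚ)) (hS : Invariant G S) (ho : AllOdd c S) (hS0 : S ≠ ⊥) {g : ℕ}
    (hg : Fintype.card X = 2 * g) :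
    ((orthSignsW M c S).ncard : ℝ) ≤ 2 ^ g * √(2 * finrank ℚ S / (π * g)) ^ finrank ℚ S := by
  classical
  obtain ⟨T, hT⟩ := exists_transversal hcc hne
  have hTg : T.card = g := by
    have := card_transversal hcc hT
    omega
  obtain ⟨a, e, he, hrep, hone⟩ := exists_base S
  have hd : 0 < finrank ℚ S := by
    rw [Module.finrank_pos_iff]
    exact (Submodule.nontrivial_iff_ne_bot).2 hS0
  have : Nonempty (Fin (finrank ℚ S)) := ⟨⟨0, hd⟩⟩
  -- the common denominator
  obtain ⟨D₀, hD₀0, E₀, hE₀⟩ : ∃ D : ℕ, D ≠ 0 ∧ ∃ E : Fin (finrank ℚ S) → X → ℤ,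
      ∀ k x, (E k x : ℚ) = D * e k x := by
    refine ⟨∏ p : Fin (finrank ℚ S) × X, (e p.1 p.2).den,
      Finset.prod_ne_zero_iff.2 (fun p _ => (e p.1 p.2).den_nz),
      fun k x => (∏ p ∈ Finset.univ.erase (k, x), (e p.1 p.2).den : ℕ) * (e k x).num,
      fun k x => ?_⟩
    rw [← Finset.prod_erase_mul _ _ (Finset.mem_univ (k, x))]
    push_cast
    rw [mul_assoc, Rat.den_mul_eq_num]
  obtain ⟨D, hD0, E, hE, hMD⟩ : ∃ D : ℕ, D ≠ 0 ∧ ∃ E : Fin (finrank ℚ S) → X → ℤ,
      (∀ k x, (E k x : ℚ) = D * e k x) ∧ ∀ x, M x ∣ (D : ℤ) := by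
    refine ⟨D₀ * ∏ x, (M x).natAbs, mul_ne_zero hD₀0 (Finset.prod_ne_zero_iff.2 fun x _ =>
      Int.natAbs_ne_zero.2 (hM0 x)), fun k x => (∏ x, (M x).natAbs : ℕ) * E₀ k x, fun k x => ?_,
      fun x => ?_⟩
    · generalize (∏ x, (M x).natAbs) = n
      push_cast
      rw [hE₀]
      ring
    · rw [Nat.cast_mul]
      refine Dvd.dvd.mul_left ?_ _
      rw [← Int.natAbs_dvd, Int.natCast_dvd_natCast]
      exact Finset.dvd_prod_of_mem _ (Finset.mem_univ x)
  have h1 := fun j => ncard_le_mod (G := G) M hMc hcc hT S hS ho a e he hrep hone D E hE hMD j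
  rw [Fintype.card_fin, hTg] at h1
  have h2 : Filter.Tendsto (fun j : ℕ => (2 : ℝ) ^ g *
      (1 / ((2 * D * j + 1 : ℕ) : ℝ) + √(2 * (finrank ℚ S : ℕ) / (π * g))) ^ finrank ℚ S)
      Filter.atTop (nhds (2 ^ g * (0 + √(2 * finrank ℚ S / (π * g))) ^ finrank ℚ S)) := by
    refine Filter.Tendsto.const_mul _ (Filter.Tendsto.pow (Filter.Tendsto.add ?_
      tendsto_const_nhds) _)
    have h3 : Filter.Tendsto (fun j : ℕ => 2 * D * j + 1) Filter.atTop Filter.atTop := by
      refine Filter.tendsto_atTop_mono (f := fun j => j) (fun j => ?_) Filter.tendsto_id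
      have : 1 ≤ 2 * D := by omega
      nlinarith
    exact tendsto_one_div_atTop_nhds_zero_nat.comp h3
  rw [zero_add] at h2
  exact ge_of_tendsto' h2 h1

end orth

section kill

variable {G X : Type*} [Group G] [Fintype G] [MulAction G X] [Fintype X] [DecidableEq X]
  [MulAction.IsPretransitive G X] {p : ℕ} [Fact p.Prime]
  {S : Type*} [AddCommGroup S] [Module (ZMod p) S] [Module.Finite (ZMod p) S]

/-- The number of the odd sign functions `f` on `X` with `∑ (f x * M x) • L x = 0`. -/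
theorem ncard_kill (M : X → ℤ) (hMp : ∀ x, ((M x : ℤ) : ZMod p) ≠ 0) {c : G}
    (hMc : ∀ x, M (c • x) = M x) (hc : c * c = 1) (hfree : ∀ x : X, c • x ≠ x) (hp : p ≠ 2) {g : ℕ}
    (hg : Fintype.card X = 2 * g) (L : X → S) (R : G → S →ₗ[ZMod p] S)
    (hL : ∀ (γ : G) x, L (γ • x) = R γ (L x)) (hodd : ∀ x, L (c • x) = - L x)
    (hspan : Submodule.span (ZMod p) (Set.range L) = ⊤) [Nontrivial S] :
    (({f ∈ oddSigns X (fun x => c • x) | ∑ x, ((f x * M x : ℤ) : ZMod p) • L x = 0}.ncard : ℕ) : ℝ) *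
      p ^ finrank (ZMod p) S ≤
      2 ^ g * sig p ((g : ℝ) / finrank (ZMod p) S) ^ finrank (ZMod p) S := by
  classical
  have hcc : ∀ x : X, c • (c • x) = x := fun x => by rw [smul_smul, hc, one_smul]
  have hne : ∀ x : X, c • x ≠ x := hfree
  obtain ⟨T, hT⟩ := exists_transversal (c := fun x : X => c • x) hcc hne
  have hTg : T.card = g := by
    have := card_transversal (c := fun x : X => c • x) hcc hT
    omega
  -- a basis of translates
  obtain ⟨κ, a, ha, hs, hli⟩ := exists_linearIndependent' (ZMod p) L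
  have hfin : Finite κ := hli.finite
  have hfint : Fintype κ := Fintype.ofFinite κ
  let b : Basis κ (ZMod p) S := Basis.mk hli (by rw [hs, hspan])
  have hb : ∀ k, b k = L (a k) := fun k => by rw [Basis.mk_apply]; rfl
  have hcard : Fintype.card κ = finrank (ZMod p) S := (finrank_eq_card_basis b).symm
  have hn : 0 < finrank (ZMod p) S := finrank_pos
  have hκ : Nonempty κ := Fintype.card_pos_iff.1 (by rw [hcard]; exact hn)
  have hodd' : ∀ k x, b.repr (L (c • x)) k = - b.repr (L x) k := by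
    intro k x
    rw [hodd, map_neg]
    rfl
  have hone : ∀ k l, b.repr (L (a l)) k = if k = l then 1 else 0 := by
    intro k l
    rw [← hb, Basis.repr_self, Finsupp.single_apply]
    simp only [eq_comm]
  have hinv : ∀ (γ : G) k x, b.repr (L (γ • x)) k =
      ∑ l, b.repr (L (γ • a l)) k * b.repr (L x) l := by
    intro γ k x
    rw [hL]
    conv_lhs => rw [← b.sum_repr (L x)]
    rw [map_sum, map_sum, Finsupp.finsetSum_apply]
    refine sum_congr rfl fun l _ => ?_
    rw [map_smul, map_smul, hb, Finsupp.smul_apply, smul_eq_mul, hL, mul_comm]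
  have hcount := fourier_count p (κ := κ) (T := T) (fun k x => (M x : ZMod p) * b.repr (L x) k)
  have hsum := sum_prod_le (G := G) p (c := fun x : X => c • x) hcc hT a
    (fun x => (M x : ZMod p)) (fun x => (M x : ZMod p)⁻¹) (fun x => inv_mul_cancel₀ (hMp x))
    (fun x => by rw [hMc]) (fun k x => b.repr (L x) k) hodd' hone hinv
  have hprod : ∀ v : κ → ZMod p, ∏ x : T, cw p (∑ k, v k * ((M x : ZMod p) * b.repr (L x) k)) =
      ∏ x ∈ T, cw p ((M x : ZMod p) * ∑ k, v k * b.repr (L x) k) := fun v => by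
    rw [← prod_coe_sort T (fun x => cw p ((M x : ZMod p) * ∑ k, v k * b.repr (L x) k))]
    refine prod_congr rfl fun x _ => ?_
    rw [mul_sum]
    congr 1
    exact sum_congr rfl fun k _ => by ring
  rw [sum_congr rfl fun v _ => hprod v, Fintype.card_coe, hcard, hTg] at hcount
  rw [hcard, hTg] at hsum
  have h2 : (2 : ZMod p) ≠ 0 := by
    intro h
    have h3 : ((2 : ℕ) : ZMod p) = 0 := by exact_mod_cast h
    rw [ZMod.natCast_eq_zero_iff] at h3
    exact hp ((Nat.prime_dvd_prime_iff_eq Fact.out Nat.prime_two).1 h3)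
  have hle : ({f ∈ oddSigns X (fun x => c • x) |
      ∑ x, ((f x * M x : ℤ) : ZMod p) • L x = 0}.ncard) ≤
      ((signs T).filter (fun ε => ∀ k, ∑ x : T, ((ε x : ℤ) : ZMod p) *
        ((M x : ZMod p) * b.repr (L x) k) = 0)).card := by
    rw [← Set.ncard_coe_finset]
    refine Set.ncard_le_ncard_of_injOn (fun f => fun x : T => f x) ?_ ?_ (Finset.finite_toSet _)
    · rintro f ⟨hf, hf0⟩
      rw [mem_coe, mem_filter]
      refine ⟨(mem_signs _).2 fun x => hf.1 x, fun k => ?_⟩
      rw [sum_transversal (c := fun x : X => c • x) hcc hT] at hf0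
      have h3 : ∀ x ∈ T, ((f x * M x : ℤ) : ZMod p) • L x +
          ((f (c • x) * M (c • x) : ℤ) : ZMod p) • L (c • x) =
          (2 : ZMod p) • (((f x * M x : ℤ) : ZMod p) • L x) := by
        intro x _
        have h4 : f (c • x) = - f x := hf.2 x
        rw [h4, hodd, two_smul, hMc]
        push_cast
        rw [neg_mul, neg_smul, smul_neg, neg_neg]
      rw [sum_congr rfl h3, ← smul_sum] at hf0
      have h4 : ∑ x ∈ T, ((f x * M x : ℤ) : ZMod p) • L x = 0 :=
        (smul_eq_zero.1 hf0).resolve_left h2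
      have h5 : b.repr (∑ x ∈ T, ((f x * M x : ℤ) : ZMod p) • L x) k = 0 := by
        rw [h4, map_zero]
        rfl
      rw [map_sum, Finsupp.finsetSum_apply] at h5
      rw [sum_coe_sort T (fun x => ((f x : ℤ) : ZMod p) * ((M x : ZMod p) * b.repr (L x) k)), ← h5]
      exact sum_congr rfl fun x _ => by
        rw [map_smul, Finsupp.smul_apply, smul_eq_mul]
        push_cast
        ring
    · intro f hf f' hf' h
      funext x
      by_cases hx : x ∈ T
      · exact congrFun h ⟨x, hx⟩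
      · have hx' : c • x ∈ T := by
          rw [hT]
          rw [hcc]
          exact hx
        have h1 : f (c • x) = f' (c • x) := congrFun h ⟨c • x, hx'⟩
        have h3 : f (c • x) = - f x := hf.1.2 x
        have h4 : f' (c • x) = - f' x := hf'.1.2 x
        rw [h3, h4] at h1
        exact neg_injective h1
  calc _ ≤ _ := mul_le_mul_of_nonneg_right (Nat.cast_le.2 hle) (by positivity)
    _ ≤ _ := hcount
    _ ≤ _ := mul_le_mul_of_nonneg_left hsum (by positivity)

end kill

end Pool.Agent.TH170.FW
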