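import Mathlib
import Pool.Agent.TH170.FW.Gen
import Pool.Agent.TH170.QE.Bound

/-!
# Explicit bounds for the weighted sign functions
-/

set_option linter.unusedSectionVars false
set_option linter.unusedVariables false

namespace Pool.Agent.TH170.FW

open Finset Module Pool.Agent.TH170.MF Pool.Agent.TH170.QC Pool.Agent.TH170.GC
open Pool.Agent.TH170.QE (edim codimFix edim_pos edim_add_le homs_of_killers
  boundA_numerics)

/-- The odd sign functions `f` such that `f M` is orthogonal to a minimal stable space of odd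
functions whose class functions are those of `K`. -/
def orthClassW {G : Type*} [Group G] [Fintype G] {X : Type*} (M : X → ℤ) (c : G)
    [MulAction G X] [Fintype X] (K : Submodule ℚ (ConjClasses G → ℚ)) : Set (X → ℤ) :=
  {f | f ∈ oddSigns X (fun x => c • x) ∧ ∃ S ∈ MinInv G (fun x : X => c • x),
    killers G (S : Set (X → ℚ)) = K ∧ ∀ s ∈ S, ∑ x, ((f x * M x : ℤ) : ℚ) * s x = 0}

variable {G X : Type*} [Group G] [Fintype G] [MulAction G X] [Fintype X]
  [DecidableEq X] [MulAction.IsPretransitive G X]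

theorem cast_ne_zero_of_dvd {M : X → ℤ} {n p : ℕ} (hMn : ∀ x, M x ∣ (n : ℤ))
    (hp : ¬ p ∣ Nat.card G * n) (x : X) : ((M x : ℤ) : ZMod p) ≠ 0 := by
  intro h
  rw [ZMod.intCast_zmod_eq_zero_iff_dvd] at h
  apply hp
  refine Dvd.dvd.mul_left ?_ _
  have h1 : (p : ℤ) ∣ (n : ℤ) := h.trans (hMn x)
  exact_mod_cast h1

/-- The count for the class of a minimal space. -/
theorem ncard_orth_iso {p : ℕ} [Fact p.Prime] (hp : p ≠ 2) (hpG : ¬ p ∣ Nat.card G)
    (M : X → ℤ) (hMp : ∀ x, ((M x : ℤ) : ZMod p) ≠ 0) {c : G} (hMc : ∀ x, M (c • x) = M x)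
    (hc : c * c = 1) (hfree : ∀ x : X, c • x ≠ x) (hcen : ∀ x, c * x = x * c) {g : ℕ}
    (hg : Fintype.card X = 2 * g) {S₀ : Submodule ℚ (X → ℚ)}
    (hS₀ : S₀ ∈ MinInv G (fun x : X => c • x)) (x₀ : X) :
    (((orthClassW M c (killers G (S₀ : Set (X → ℚ)))).ncard : ℕ) : ℝ) *
      (((p - 1 : ℕ) : ℝ) ^ edim G S₀ * (p : ℝ) ^ codimFix G x₀ S₀) ≤
      2 ^ g * sig p ((g : ℝ) / (finrank ℚ S₀ : ℝ)) ^ finrank ℚ S₀ := by
  classical
  refine le_trans ?_ (ncard_class hp hpG M hMp hMc hc hfree hcen hg hS₀.2.1 hS₀.1 x₀)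
  refine mul_le_mul_of_nonneg_right (Nat.cast_le.2 ?_) (by positivity)
  refine Set.ncard_le_ncard ?_ ((finite_oddSigns (X := X) (fun x => c • x)).subset
    fun f hf => hf.1)
  rintro f ⟨hf, S, hS, hSK, horth⟩
  obtain ⟨h1, h2⟩ := homs_of_killers hS₀ hS hSK.symm
  exact ⟨hf, S, hS.2.1, hS.2.2.1, h1, h2, horth⟩

open Real

/-- The numerical facts about the dimensions. -/
theorem basicsW {n : ℕ} (hn0 : n ≠ 0) {c : G} (hc : c * c = 1) (hfree : ∀ x : X, c • x ≠ x) {g : ℕ}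
    (hg : Fintype.card X = 2 * g) {S₀ : Submodule ℚ (X → ℚ)}
    (hS₀ : S₀ ∈ MinInv G (fun x : X => c • x)) (x₀ : X) :
    1 ≤ g ∧ 2 * g ≤ Nat.card G * n ∧ 1 ≤ finrank ℚ S₀ ∧ finrank ℚ S₀ ≤ g ∧
      0 < finrank ℚ ((ConjClasses G → ℚ) ⧸ killers G (S₀ : Set (X → ℚ))) ∧
      0.69 < log ((Nat.card G * n : ℕ) : ℝ) := by
  obtain ⟨h1, h2, h3, h4, h5, h6⟩ := basics hc hfree hg hS₀ x₀
  have h7 : Nat.card G ≤ Nat.card G * n := Nat.le_mul_of_pos_right _ (Nat.pos_of_ne_zero hn0)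
  refine ⟨h1, h2.trans h7, h3, h4, h5, h6.trans_le ?_⟩
  refine log_le_log (Nat.cast_pos.2 Nat.card_pos) ?_
  exact_mod_cast h7

/-- The first explicit bound. -/
theorem ncard_orth_boundA (M : X → ℤ) {n : ℕ} (hn0 : n ≠ 0)
    (hMn : ∀ x, M x ∣ (n : ℤ)) {c : G} (hMc : ∀ x, M (c • x) = M x) (hc : c * c = 1) (hfree : ∀ x : X, c • x ≠ x)
    (hcen : ∀ x, c * x = x * c) {g : ℕ} (hg : Fintype.card X = 2 * g)
    {S₀ : Submodule ℚ (X → ℚ)} (hS₀ : S₀ ∈ MinInv G (fun x : X => c • x)) (x₀ : X) :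
    (((orthClassW M c (killers G (S₀ : Set (X → ℚ)))).ncard : ℕ) : ℝ) ≤
      2 ^ g * QE.boundA g (finrank ℚ S₀) (edim G S₀ + codimFix G x₀ S₀) (log ((Nat.card G * n : ℕ) : ℝ)) := by
  classical
  have hcc : ∀ x : X, c • c • x = x := fun x => by rw [smul_smul, hc, one_smul]
  obtain ⟨hg1, hn, hd1, hdg, hr0, hL69⟩ := basicsW hn0 hc hfree hg hS₀ x₀
  have hgR : (1 : ℝ) ≤ g := by exact_mod_cast hg1
  set r := edim G S₀ with hr
  set e := codimFix G x₀ S₀ with he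
  set d := finrank ℚ S₀ with hd
  set L := log ((Nat.card G * n : ℕ) : ℝ) with hL
  have hrpos : 0 < r := edim_pos hS₀.1
  have hcardpos : 0 < Nat.card G * n := Nat.mul_pos Nat.card_pos (Nat.pos_of_ne_zero hn0)
  have hdR : (1 : ℝ) ≤ d := by exact_mod_cast hd1
  have htot : (((orthClassW M c (killers G (S₀ : Set (X → ℚ)))).ncard : ℕ) : ℝ) ≤ 2 ^ g := by
    have h1 : (orthClassW M c (killers G (S₀ : Set (X → ℚ)))).ncard ≤ 2 ^ g :=
      (Set.ncard_le_ncard (fun f hf => hf.1) (finite_oddSigns _)).trans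
        (ncard_oddSigns_le hcc hfree hg)
    exact_mod_cast h1
  rw [QE.boundA]
  split_ifs with hcond
  swap
  · rw [mul_one]
    exact htot
  have hLpos : 0 < L := by linarith
  obtain ⟨-, hP⟩ := boundA_numerics hd1 hn hg1 hL hcond
  set P := 3 / 2 * √((g : ℝ) / (d * L)) with hPdef
  have hP1 : 10 ^ 4 ≤ P := by linarith
  have hP2 : 10 * L ≤ P := by
    have : (0 : ℝ) ≤ 10 ^ 4 := by norm_num
    linarith
  have hP0 : 0 < P := lt_of_lt_of_le (by norm_num) hP1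
  have hPsq : P ^ 2 = 9 / 4 * (g / (d * L)) := by
    rw [hPdef, mul_pow, sq_sqrt (by positivity)]
    norm_num
  obtain ⟨p, hp, hpGn, hp1, hp2⟩ := exists_prime_not_dvd hP1 hcardpos hP2
  have hfact : Fact p.Prime := ⟨hp⟩
  have hpG : ¬ p ∣ Nat.card G := fun h => hpGn (Dvd.dvd.mul_right h n)
  have hMp := cast_ne_zero_of_dvd (G := G) hMn hpGn
  have hp3 : 2 < p := by
    have h1 : (2 : ℝ) < p := by
      have : (10 : ℝ) ^ 4 / 4 ≤ P / 4 := by linarith
      norm_num at this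
      linarith
    exact_mod_cast h1
  have hodd : Odd p := hp.odd_of_ne_two (by omega)
  have hp0 : (0 : ℝ) < p := by linarith
  have hmain := ncard_orth_iso (p := p) (by omega) hpG M hMp hMc hc hfree hcen hg hS₀ x₀
  rw [← hr, ← he, ← hd] at hmain
  have hsig : sig p ((g : ℝ) / (d : ℝ)) ^ d ≤ exp 1 := by
    refine sig_pow_le hodd (by positivity) ?_
    have h1 : 2 * L ≤ π ^ 2 * ((g : ℝ) / d) / (2 * p ^ 2) := by
      rw [le_div_iff₀ (by positivity)]
      have h2 : (p : ℝ) ^ 2 ≤ 9 / 4 * (g / (d * L)) := by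
        rw [← hPsq]
        exact pow_le_pow_left₀ hp0.le hp2 2
      have h3 : (p : ℝ) ^ 2 * L ≤ 9 / 4 * (g / d) := by
        have h4 := mul_le_mul_of_nonneg_right h2 hLpos.le
        have h5 : 9 / 4 * ((g : ℝ) / (d * L)) * L = 9 / 4 * (g / d) := by field_simp
        linarith
      have h5 : (9 : ℝ) ≤ π ^ 2 := by nlinarith [pi_gt_three]
      have h6 : 0 ≤ (g : ℝ) / d := by positivity
      nlinarith
    have h2 : (p : ℝ) ≤ 2 * g := by
      refine hp2.trans ?_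
      refine (pow_le_pow_iff_left₀ hP0.le (by positivity) two_ne_zero).1 ?_
      rw [hPsq, mul_pow, ← mul_div_assoc, div_le_iff₀ (by positivity)]
      have h3 : 0.69 ≤ (d : ℝ) * L := by nlinarith
      have h4 : 9 / 4 * (g : ℝ) ≤ 2 ^ 2 * (g : ℝ) ^ 2 * 0.69 := by nlinarith
      have h5 : 2 ^ 2 * (g : ℝ) ^ 2 * 0.69 ≤ 2 ^ 2 * (g : ℝ) ^ 2 * (d * L) := by gcongr
      linarith
    have h3 : (d : ℝ) ≤ 2 * g := by
      have : (d : ℝ) ≤ g := by exact_mod_cast hdg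
      linarith
    have h4 : 2 * (g : ℝ) ≤ ((Nat.card G * n : ℕ) : ℝ) := by exact_mod_cast hn
    calc (p : ℝ) * d ≤ (2 * g) * (2 * g) := by gcongr
      _ ≤ ((Nat.card G * n : ℕ) : ℝ) * ((Nat.card G * n : ℕ) : ℝ) := by gcongr
      _ = exp (2 * L) := by
        rw [two_mul L, exp_add, hL, exp_log (by linarith)]
      _ ≤ _ := exp_le_exp.2 h1
  have hcast : ((p - 1 : ℕ) : ℝ) = (p : ℝ) - 1 := by
    rw [Nat.cast_sub (by omega), Nat.cast_one]
  rw [hcast] at hmain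
  have hpP : P / 4.01 ≤ (p : ℝ) - 1 := by
    have : (10 : ℝ) ^ 4 = 10000 := by norm_num
    rw [this] at hP1
    have h1 : P / 4.01 = P / 4 - P * (0.01 / (4 * 4.01)) := by ring
    rw [h1]
    nlinarith
  set B := √(53 * L * d / g) with hB
  have hB0 : 0 ≤ B := sqrt_nonneg _
  have hBP : 10.92 ≤ B * P := by
    refine (pow_le_pow_iff_left₀ (by norm_num) (by positivity) two_ne_zero).1 ?_
    rw [mul_pow, hPsq, hB, sq_sqrt (by positivity)]
    have h1 : 53 * L * d / g * (9 / 4 * (g / (d * L))) = 53 * (9 / 4) := by field_simp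
    rw [h1]
    norm_num
  have hBp : 2.72 ≤ B * ((p : ℝ) - 1) := by
    have h1 : B * (P / 4.01) ≤ B * ((p : ℝ) - 1) := mul_le_mul_of_nonneg_left hpP hB0
    have h2 : B * (P / 4.01) = B * P / 4.01 := by ring
    rw [h2] at h1
    have h3 : 2.72 ≤ B * P / 4.01 := by
      rw [le_div_iff₀ (by norm_num)]
      linarith
    exact h3.trans h1
  have hpow : exp 1 ≤ (B * ((p : ℝ) - 1)) ^ (r + e) := exp_one_le_pow hBp (by omega)
  have hp10 : 0 < (p : ℝ) - 1 := by
    have : (2 : ℝ) < p := by exact_mod_cast hp3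
    linarith
  have hpp : 0 < ((p : ℝ) - 1) ^ (r + e) := pow_pos hp10 _
  have hle : ((p : ℝ) - 1) ^ (r + e) ≤ ((p : ℝ) - 1) ^ r * (p : ℝ) ^ e := by
    rw [pow_add]
    exact mul_le_mul_of_nonneg_left (pow_le_pow_left₀ hp10.le (by linarith) _) (by positivity)
  have hfin : (((orthClassW M c (killers G (S₀ : Set (X → ℚ)))).ncard : ℕ) : ℝ) *
      ((p : ℝ) - 1) ^ (r + e) ≤ 2 ^ g * B ^ (r + e) * ((p : ℝ) - 1) ^ (r + e) := by
    refine (mul_le_mul_of_nonneg_left hle (Nat.cast_nonneg _)).trans (hmain.trans ?_)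
    rw [mul_assoc, ← mul_pow]
    exact mul_le_mul_of_nonneg_left (hsig.trans hpow) (by positivity)
  exact le_of_mul_le_mul_right hfin hpp

/-- The second explicit bound. -/
theorem ncard_orth_boundC (M : X → ℤ) {n : ℕ} (hn0 : n ≠ 0)
    (hMn : ∀ x, M x ∣ (n : ℤ)) {c : G} (hMc : ∀ x, M (c • x) = M x) (hc : c * c = 1) (hfree : ∀ x : X, c • x ≠ x)
    (hcen : ∀ x, c * x = x * c) {g : ℕ} (hg : Fintype.card X = 2 * g)
    {S₀ : Submodule ℚ (X → ℚ)} (hS₀ : S₀ ∈ MinInv G (fun x : X => c • x)) (x₀ : X) :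
    (((orthClassW M c (killers G (S₀ : Set (X → ℚ)))).ncard : ℕ) : ℝ) ≤
      2 ^ g * boundC g (finrank ℚ S₀) (edim G S₀ + codimFix G x₀ S₀) (log ((Nat.card G * n : ℕ) : ℝ)) := by
  classical
  obtain ⟨hg1, hn, hd1, hdg, hr0, hL69⟩ := basicsW hn0 hc hfree hg hS₀ x₀
  have hgR : (1 : ℝ) ≤ g := by exact_mod_cast hg1
  have hcd := edim_add_le hc hcen x₀ hS₀.2.1 hS₀.2.2.1
  set r := edim G S₀ with hr
  set e := codimFix G x₀ S₀ with he
  set d := finrank ℚ S₀ with hd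
  set L := log ((Nat.card G * n : ℕ) : ℝ) with hL
  have hdR : (1 : ℝ) ≤ d := by exact_mod_cast hd1
  have hdgR : (d : ℝ) ≤ g := by exact_mod_cast hdg
  have hLpos : 0 < L := by linarith
  rw [boundC]
  set P := 10 ^ 4 + 10 * L + 6 * √((d : ℝ) * g) with hP
  have hsq0 : 0 ≤ √((d : ℝ) * g) := sqrt_nonneg _
  have hP1 : 10 ^ 4 ≤ P := by linarith
  have hP2 : 10 * L ≤ P := by
    have : (0 : ℝ) ≤ 10 ^ 4 := by norm_num
    linarith
  have hP0 : 0 < P := lt_of_lt_of_le (by norm_num) hP1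
  have hcardpos : 0 < Nat.card G * n := Nat.mul_pos Nat.card_pos (Nat.pos_of_ne_zero hn0)
  obtain ⟨p, hp, hpGn, hp1, hp2⟩ := exists_prime_not_dvd hP1 hcardpos hP2
  have hfact : Fact p.Prime := ⟨hp⟩
  have hpG : ¬ p ∣ Nat.card G := fun h => hpGn (Dvd.dvd.mul_right h n)
  have hMp := cast_ne_zero_of_dvd (G := G) hMn hpGn
  have hp4 : 2500 + 1.5 * √((d : ℝ) * g) < p := by
    have h1 : (10 : ℝ) ^ 4 = 10000 := by norm_num
    rw [h1] at hP
    linarith
  have hp3 : 2 < p := by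
    have h1 : (2 : ℝ) < p := by linarith
    exact_mod_cast h1
  have hodd : Odd p := hp.odd_of_ne_two (by omega)
  have hp0 : (0 : ℝ) < p := by linarith
  have hmain := ncard_orth_iso (p := p) (by omega) hpG M hMp hMc hc hfree hcen hg hS₀ x₀
  rw [← hr, ← he, ← hd] at hmain
  have hcast : ((p - 1 : ℕ) : ℝ) = (p : ℝ) - 1 := by
    rw [Nat.cast_sub (by omega), Nat.cast_one]
  rw [hcast] at hmain
  have hdsq : (d : ℝ) ≤ √((d : ℝ) * g) := by
    refine le_sqrt_of_sq_le ?_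
    nlinarith
  set s := √(2 * d / (π * g)) with hs
  have hs0 : 0 < s := sqrt_pos.2 (by positivity)
  have hsig1 : sig p ((g : ℝ) / d) ≤ 1 + p * s := by
    refine (sum_cw_le p hodd (by positivity)).trans (le_of_eq ?_)
    rw [hs]
    congr 3
    field_simp
  have hps : (d : ℝ) ≤ p * s := by
    have h1 : (1.5 * √((d : ℝ) * g)) * s ≤ p * s := by
      refine mul_le_mul_of_nonneg_right (by linarith) hs0.le
    have h2 : √((d : ℝ) * g) * s = d * √(2 / π) := by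
      rw [hs, ← sqrt_mul (by positivity)]
      have h3 : (d : ℝ) * g * (2 * d / (π * g)) = d ^ 2 * (2 / π) := by
        field_simp
      rw [h3, sqrt_mul (by positivity), sqrt_sq (by positivity)]
    have h3 : 0.7 ≤ √(2 / π) := by
      refine le_sqrt_of_sq_le ?_
      rw [le_div_iff₀ pi_pos]
      nlinarith [pi_lt_d2]
    have h4 : (1.5 * √((d : ℝ) * g)) * s = 1.5 * (√((d : ℝ) * g) * s) := by ring
    rw [h4, h2] at h1
    nlinarith
  have hsig : sig p ((g : ℝ) / (d : ℝ)) ^ d ≤ exp 1 * (p * s) ^ d := by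
    have h1 : 1 + (p : ℝ) * s ≤ (1 + 1 / d) * (p * s) := by
      have h2 : 1 ≤ 1 / (d : ℝ) * (p * s) := by
        rw [one_div, inv_mul_eq_div, one_le_div (by linarith)]
        exact hps
      linarith
    calc sig p ((g : ℝ) / (d : ℝ)) ^ d ≤ ((1 + 1 / d) * (p * s)) ^ d :=
          pow_le_pow_left₀ (sig_nonneg _ _) (hsig1.trans h1) d
      _ = (1 + 1 / d) ^ d * (p * s) ^ d := mul_pow _ _ _
      _ ≤ exp 1 * (p * s) ^ d := by
          refine mul_le_mul_of_nonneg_right ?_ (by positivity)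
          calc (1 + 1 / (d : ℝ)) ^ d ≤ (exp (1 / d)) ^ d := by
                refine pow_le_pow_left₀ (by positivity) ?_ d
                rw [add_comm]
                exact add_one_le_exp _
            _ = exp 1 := by rw [← exp_nat_mul, mul_one_div_cancel (by linarith)]
  have hp10 : 0 < (p : ℝ) - 1 := by linarith
  have hrd : (r : ℝ) ≤ (p : ℝ) - 1 := by
    have h1 : (r : ℝ) ≤ d := by
      have : r ≤ d := by omega
      exact_mod_cast this
    linarith
  have hpr : (p : ℝ) ^ r ≤ exp 1 * ((p : ℝ) - 1) ^ r := by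
    have h1 : (p : ℝ) = (1 + 1 / ((p : ℝ) - 1)) * ((p : ℝ) - 1) := by
      field_simp
      ring
    calc (p : ℝ) ^ r = ((1 + 1 / ((p : ℝ) - 1)) * ((p : ℝ) - 1)) ^ r := by rw [← h1]
      _ = (1 + 1 / ((p : ℝ) - 1)) ^ r * ((p : ℝ) - 1) ^ r := mul_pow _ _ _
      _ ≤ exp 1 * ((p : ℝ) - 1) ^ r := by
          refine mul_le_mul_of_nonneg_right ?_ (by positivity)
          calc (1 + 1 / ((p : ℝ) - 1)) ^ r ≤ (exp (1 / ((p : ℝ) - 1))) ^ r := by
                refine pow_le_pow_left₀ (by positivity) ?_ r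
                rw [add_comm]
                exact add_one_le_exp _
            _ = exp (r * (1 / ((p : ℝ) - 1))) := by rw [← exp_nat_mul]
            _ ≤ exp 1 := by
                apply exp_le_exp.2
                rw [mul_one_div, div_le_one hp10]
                exact hrd
  set N := (((orthClassW M c (killers G (S₀ : Set (X → ℚ)))).ncard : ℕ) : ℝ) with hN
  have hN0 : 0 ≤ N := Nat.cast_nonneg _
  have hfin : N * (p : ℝ) ^ (r + e) ≤
      2 ^ g * (exp 1 * exp 1) * s ^ d * (p : ℝ) ^ (d - (r + e)) * (p : ℝ) ^ (r + e) := by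
    have h1 : (p : ℝ) ^ (d - (r + e)) * (p : ℝ) ^ (r + e) = (p : ℝ) ^ d := by
      rw [← pow_add, Nat.sub_add_cancel hcd]
    have h2 : N * (p : ℝ) ^ (r + e) ≤ exp 1 * (N * (((p : ℝ) - 1) ^ r * (p : ℝ) ^ e)) := by
      rw [pow_add]
      have h3 : (p : ℝ) ^ r * (p : ℝ) ^ e ≤ exp 1 * ((p : ℝ) - 1) ^ r * (p : ℝ) ^ e :=
        mul_le_mul_of_nonneg_right hpr (by positivity)
      calc N * ((p : ℝ) ^ r * (p : ℝ) ^ e) ≤ N * (exp 1 * ((p : ℝ) - 1) ^ r * (p : ℝ) ^ e) :=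
            mul_le_mul_of_nonneg_left h3 hN0
        _ = _ := by ring
    calc N * (p : ℝ) ^ (r + e) ≤ exp 1 * (N * (((p : ℝ) - 1) ^ r * (p : ℝ) ^ e)) := h2
      _ ≤ exp 1 * (2 ^ g * (exp 1 * (p * s) ^ d)) := by
          refine mul_le_mul_of_nonneg_left (hmain.trans ?_) (exp_pos 1).le
          exact mul_le_mul_of_nonneg_left hsig (by positivity)
      _ = 2 ^ g * (exp 1 * exp 1) * s ^ d * (p : ℝ) ^ d := by
          rw [mul_pow]
          ring
      _ = _ := by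
          rw [← h1]
          ring
  have h1 := le_of_mul_le_mul_right hfin (by positivity)
  refine h1.trans ?_
  have h2 : exp 1 * exp 1 ≤ 8 := by
    have h3 : exp 1 ≤ 2.7182818286 := exp_one_lt_d9.le
    have h4 : 0 < exp 1 := exp_pos 1
    nlinarith
  have h3 : (p : ℝ) ^ (d - (r + e)) ≤ P ^ (d - (r + e)) := pow_le_pow_left₀ hp0.le hp2 _
  calc 2 ^ g * (exp 1 * exp 1) * s ^ d * (p : ℝ) ^ (d - (r + e)) ≤
      2 ^ g * 8 * s ^ d * P ^ (d - (r + e)) := by gcongr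
    _ = _ := by ring

end Pool.Agent.TH170.FW
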