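import Mathlib
import Pool.Agent.TH170.QD.Defs
import Pool.Agent.TH170.MF.Quad
import Pool.Agent.TH170.MF.Examples

/-!
# The bound for the proportion of the degenerate types, for the signs with weights
-/

namespace Pool.Agent.TH170.FW

open NumberField Module Pool.Agent.H204R3.CM Pool.Agent.TH170.MF Pool.Agent.TH170.QD

open Classical in
/-- The bound for the proportion of the types that are degenerate at the component `W` of dimension
`d`, for weights that divide `n`: it is `0` if `n` is odd and each minimal space in `W` contains a
function with integral values whose sum over a CM type is odd; otherwise, if `W` is a minimal space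
it is `(2 d / (π g)) ^ (d / 2)`, and if `W` is not minimal it is the number
`bound g (dim S) (codim S) (log (|G| n))` for the minimal spaces `S` with the component `W`. -/
noncomputable def weight {E : Type*} [Field E] [NumberField E] (n g : ℕ) (φ₀ : E →+* ℂ)
    (W : Submodule ℚ ((E →+* ℂ) → ℚ)) : ℝ :=
  if Odd n ∧ ∀ S ∈ minimalSpaces E, S ≤ W → HasOddSum S then 0
  else if W ∈ minimalSpaces E then √(2 * finrank ℚ W / (Real.pi * g)) ^ finrank ℚ W
  else sInf {x | ∃ S ∈ minimalSpaces E, component S = W ∧
    x = bound g (finrank ℚ S) (codim φ₀ S) (Real.log (galoisOrder E * n : ℕ))}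

/-- The bound `ρ` for the proportion of the degenerate types of a CM field `E` of degree `2 g`, for
weights that divide `n`: the sum of the weights of the isotypic components. -/
noncomputable def rho {E : Type*} [Field E] [NumberField E] (n g : ℕ) (φ₀ : E →+* ℂ) : ℝ :=
  ∑ᶠ W ∈ components E, weight n g φ₀ W

/-- The estimate of the contribution of the components that are minimal spaces to `ρ`, for all CM
fields `E`. -/
def RhoEstimate : Prop :=
  ∀ (E : Type) [Field E] [NumberField E] [IsCMField E] (n g : ℕ) (φ₀ : E →+* ℂ),
    finrank ℚ E = 2 * g → rho n g φ₀ ≤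
      (if Even (n * g) then (numImagQuadratic E : ℝ) / √g else 0) + 2 * (numSimple E 2 + 1) / g +
        3 * numSimple E 3 / (g * √g) + ∑ᶠ W ∈ multipleComponents E, weight n g φ₀ W

end Pool.Agent.TH170.FW
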