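import Mathlib
import Pool.Agent.TH170.FW.Defs
import Pool.Agent.TH170.FW.Bound
import Pool.Agent.TH170.QD.Main

/-!
# The number of the degenerate types of a CM field, with weights
-/

set_option linter.unusedSectionVars false
set_option linter.unusedVariables false

namespace Pool.Agent.TH170.FW

section num

open Real Finset Pool.Agent.TH170.MF

theorem sum_counts_le {ι : Type*} (Q : Prop) [Decidable Q] (F : Finset ι) (dim : ι → ℕ) (hdim : ∀ i ∈ F, 0 < dim i)
    {g : ℕ} (hg : 0 < g) (hsum : ∑ i ∈ F, dim i ≤ g) (cnt : ι → ℝ)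
    (hcnt : ∀ i ∈ F, cnt i ≤ √(2 * dim i / (π * g)) ^ dim i)
    (hodd : ¬ Q → ∀ i ∈ F, dim i = 1 → cnt i = 0) :
    ∑ i ∈ F, cnt i ≤
      (if Q then ((F.filter (fun i => dim i = 1)).card : ℝ) / √g else 0) +
        2 * ((F.filter (fun i => dim i = 2)).card + 1) / g +
        3 * (F.filter (fun i => dim i = 3)).card / (g * √g) := by
  classical
  have hg' : (0 : ℝ) < g := Nat.cast_pos.2 hg
  have hle : ∀ i ∈ F, dim i ≤ g := fun i hi =>
    (single_le_sum (f := dim) (fun _ _ => Nat.zero_le _) hi).trans hsum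
  obtain ⟨A, hA⟩ : ∃ A : ℝ, A = if Q then 1 / √g else 0 := ⟨_, rfl⟩
  have h1 : ∀ i ∈ F, cnt i ≤
      (if dim i = 1 then A else (0 : ℝ)) +
        (if dim i = 2 then (2 : ℝ) / g else (0 : ℝ)) +
        (if dim i = 3 then (3 : ℝ) / (g * √g) else (0 : ℝ)) + (dim i / g : ℝ) * (2 / g) := by
    intro i hi
    have h2 : 0 ≤ (dim i / g : ℝ) * (2 / g) := by positivity
    by_cases h3 : dim i = 1
    · rw [if_pos h3, if_neg (by omega), if_neg (by omega)]
      by_cases h4 : Q
      · rw [if_pos h4] at hA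
        have h5 := hcnt i hi
        rw [h3] at h5
        have h6 := term_one hg
        rw [← hA] at h6
        linarith
      · rw [if_neg h4] at hA
        rw [hodd h4 i hi h3, hA]
        linarith
    by_cases h4 : dim i = 2
    · rw [if_neg h3, if_pos h4, if_neg (by omega)]
      have h5 := hcnt i hi
      rw [h4] at h5
      have h6 := term_two hg
      linarith
    by_cases h5 : dim i = 3
    · rw [if_neg h3, if_neg h4, if_pos h5]
      have h6 := hcnt i hi
      rw [h5] at h6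
      have h7 := term_eq_three hg
      linarith
    rw [if_neg h3, if_neg h4, if_neg h5, zero_add, zero_add, zero_add]
    have h6 := hdim i hi
    exact (hcnt i hi).trans (term_four (by omega) (hle i hi))
  refine (sum_le_sum h1).trans ?_
  rw [sum_add_distrib, sum_add_distrib, sum_add_distrib, ← sum_filter, ← sum_filter,
    ← sum_filter, sum_const, sum_const, sum_const, ← sum_mul, ← sum_div, nsmul_eq_mul,
    nsmul_eq_mul, nsmul_eq_mul]
  have h2 : (∑ i ∈ F, (dim i : ℝ)) / g ≤ 1 := by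
    rw [div_le_one hg', ← Nat.cast_sum]
    exact_mod_cast hsum
  have h3 : (∑ i ∈ F, (dim i : ℝ)) / g * (2 / g) ≤ 1 * (2 / g) :=
    mul_le_mul_of_nonneg_right h2 (by positivity)
  have h4 : ((F.filter (fun i => dim i = 1)).card : ℝ) * A =
      (if Q then ((F.filter (fun i => dim i = 1)).card : ℝ) / √g else 0) := by
    rw [hA]
    split_ifs
    · ring
    · ring
  rw [h4]
  have h5 : ((F.filter (fun i => dim i = 2)).card : ℝ) * (2 / g) +
      ((F.filter (fun i => dim i = 3)).card : ℝ) * (3 / (g * √g)) + 1 * (2 / g) =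
        2 * ((F.filter (fun i => dim i = 2)).card + 1) / g +
        3 * (F.filter (fun i => dim i = 3)).card / (g * √g) := by ring
  linarith

end num

open NumberField Finset Module Pool.Agent.H204R3.CM Pool.Agent.TH170.CM Pool.Agent.TH170.MF
open Pool.Agent.TH170.QD (component components numSimple multipleComponents codim HasOddSum bound
  galoisOrder_eq finrank_endomorphisms fixedPart_eq component_eq components_eq numSimple_eq
  multipleComponents_eq hasOddSum_of_finrank_one)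

variable {E : Type*} [Field E] [NumberField E] [IsCMField E]

/-- The sign function of the type `Φ` with the weights `M` is orthogonal to `S`. -/
def OrthW (M : (E →+* ℂ) → ℤ) (Φ : Set (E →+* ℂ)) (S : Submodule ℚ ((E →+* ℂ) → ℚ)) : Prop :=
  ∀ s ∈ S, ∑ φ, ((sgn Φ φ * M φ : ℤ) : ℚ) * s φ = 0

/-- There are no types orthogonal to a space of odd functions with an odd sum. -/
theorem not_orthW_of_hasOddSum {M : (E →+* ℂ) → ℤ}
    (hMc : ∀ φ, M (ComplexEmbedding.conjugate φ) = M φ) (hMo : ∀ φ, Odd (M φ))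
    {S : Submodule ℚ ((E →+* ℂ) → ℚ)} (ho : IsOddSpace S) (h : HasOddSum S)
    {Φ : Set (E →+* ℂ)} (hΦ : IsCMType Φ) : ¬ OrthW M Φ S := by
  classical
  intro hsum
  obtain ⟨u, huS, T, hT, hodd⟩ := h
  have h2 := hsum _ huS
  have hTt : ∀ φ, φ ∈ T.toFinset ↔ ComplexEmbedding.conjugate φ ∉ T.toFinset := by
    intro φ
    rw [Set.mem_toFinset, Set.mem_toFinset]
    exact hT φ
  rw [sum_transversal (c := ComplexEmbedding.conjugate (K := E)) conj_conj hTt] at h2
  have h3 : ∀ φ ∈ T.toFinset, ((sgn Φ φ * M φ : ℤ) : ℚ) * (u φ : ℚ) +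
      ((sgn Φ (ComplexEmbedding.conjugate φ) * M (ComplexEmbedding.conjugate φ) : ℤ) : ℚ) *
        (u (ComplexEmbedding.conjugate φ) : ℚ) =
      2 * ((u φ * (sgn Φ φ * M φ) : ℤ) : ℚ) := by
    intro φ _
    have h4 : ((u (ComplexEmbedding.conjugate φ) : ℤ) : ℚ) = - (u φ : ℚ) := ho _ huS φ
    rw [h4, (oddSign_sgn hΦ).2, hMc]
    push_cast
    ring
  rw [sum_congr rfl h3, ← mul_sum, ← Int.cast_sum] at h2
  have h4 := (mul_eq_zero.1 h2).resolve_left two_ne_zero
  have h5 : ∑ φ ∈ T.toFinset, u φ * (sgn Φ φ * M φ) = 0 := by exact_mod_cast h4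
  have h6 : ∑ᶠ φ ∈ T, u φ = ∑ φ ∈ T.toFinset, u φ := by
    rw [finsum_mem_eq_toFinset_sum]
  rw [h6] at hodd
  have h7 : ((∑ φ ∈ T.toFinset, u φ * (sgn Φ φ * M φ) : ℤ) : ZMod 2) =
      ((∑ φ ∈ T.toFinset, u φ : ℤ) : ZMod 2) := by
    rw [Int.cast_sum, Int.cast_sum]
    refine sum_congr rfl fun φ _ => ?_
    have hM1 : ((M φ : ℤ) : ZMod 2) = 1 := by
      obtain ⟨k, hk⟩ := hMo φ
      rw [hk]
      push_cast
      have : (2 : ZMod 2) = 0 := rfl
      rw [this, zero_mul, zero_add]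
    rcases (oddSign_sgn hΦ).1 φ with h8 | h8
    · rw [h8, one_mul, Int.cast_mul, hM1, mul_one]
    · rw [h8, Int.cast_mul, Int.cast_mul, hM1, mul_one]
      push_cast
      rw [mul_neg, mul_one]
      exact ZMod.neg_eq_self_mod_two _
  rw [h5, Int.cast_zero] at h7
  exact (Int.not_even_iff_odd.2 hodd) ((ZMod.intCast_eq_zero_iff_even).1 h7.symm)

/-- The number of types orthogonal to a Galois-stable space of odd functions. -/
theorem ncard_orthW {M : (E →+* ℂ) → ℤ} (hM0 : ∀ φ, M φ ≠ 0)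
    (hMc : ∀ φ, M (ComplexEmbedding.conjugate φ) = M φ)
    (S : Submodule ℚ ((E →+* ℂ) → ℚ)) (hS : IsStable S)
    (ho : IsOddSpace S) (hS0 : S ≠ ⊥) {g : ℕ} (hg : finrank ℚ E = 2 * g) :
    (({Φ : Set (E →+* ℂ) | IsCMType Φ ∧ OrthW M Φ S}.ncard : ℕ) : ℝ) ≤
      2 ^ g * √(2 * finrank ℚ S / (Real.pi * g)) ^ finrank ℚ S := by
  classical
  have h1 := ncard_orthSignsW_le (G := Gal E) M hM0 (c := ComplexEmbedding.conjugate (K := E)) hMc
    conj_conj conj_ne S ((invariant_iff S).2 hS) ho hS0 (g := g) (by rw [Embeddings.card, hg])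
  refine le_trans ?_ h1
  rw [Nat.cast_le]
  refine Set.ncard_le_ncard_of_injOn sgn ?_ ?_
    ((GC.finite_oddSigns (ComplexEmbedding.conjugate (K := E))).subset fun f hf => hf.1)
  · rintro Φ ⟨hΦ, hsum⟩
    exact ⟨oddSign_sgn hΦ, hsum⟩
  · intro Φ _ Φ' _ h
    exact sgn_injective h

theorem bound_eq {g : ℕ} (φ₀ : E →+* ℂ) {S : Submodule ℚ ((E →+* ℂ) → ℚ)}
    (hS : Invariant (Gal E) S) (n : ℕ) :
    bound g (finrank ℚ S) (codim φ₀ S) (Real.log (QD.galoisOrder E * n : ℕ)) = min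
      (QE.boundA g (finrank ℚ S) (QE.edim (Gal E) S + QE.codimFix (Gal E) φ₀ S)
        (Real.log ((Nat.card (Gal E) * n : ℕ) : ℝ)))
      (QC.boundC g (finrank ℚ S) (QE.edim (Gal E) S + QE.codimFix (Gal E) φ₀ S)
        (Real.log ((Nat.card (Gal E) * n : ℕ) : ℝ))) := by
  classical
  unfold bound QE.boundA QC.boundC codim QE.codimFix
  rw [galoisOrder_eq, finrank_endomorphisms hS, fixedPart_eq]

/-- The types orthogonal to a minimal space with the component of `S₀`. -/
theorem ncard_at_le_term {M : (E →+* ℂ) → ℤ} {n : ℕ} (hn0 : n ≠ 0) (hMn : ∀ φ, M φ ∣ (n : ℤ))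
    (hMc : ∀ φ, M (ComplexEmbedding.conjugate φ) = M φ) {g : ℕ} (hg : finrank ℚ E = 2 * g)
    (φ₀ : E →+* ℂ) {S₀ : Submodule ℚ ((E →+* ℂ) → ℚ)} (hS₀ : S₀ ∈ minimalSpaces E) :
    (({Φ : Set (E →+* ℂ) | IsCMType Φ ∧ ∃ S ∈ minimalSpaces E, QC.component S = QC.component S₀ ∧
      OrthW M Φ S}.ncard : ℕ) : ℝ) ≤
      2 ^ g * bound g (finrank ℚ S₀) (codim φ₀ S₀) (Real.log (QD.galoisOrder E * n : ℕ)) := by
  classical
  obtain ⟨c, hc, hcc, hcen⟩ := QC.exists_conj E
  have hfun : (fun φ : E →+* ℂ => c • φ) = ComplexEmbedding.conjugate (K := E) := funext hc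
  have hmin : S₀ ∈ MinInv (Gal E) (fun φ : E →+* ℂ => c • φ) := by
    rw [hfun]
    exact (minInv_iff S₀).2 hS₀
  have hfree : ∀ φ : E →+* ℂ, c • φ ≠ φ := fun φ => by
    rw [hc]
    exact conj_ne φ
  have hMc' : ∀ φ : E →+* ℂ, M (c • φ) = M φ := fun φ => by rw [hc, hMc]
  have hcard : Fintype.card (E →+* ℂ) = 2 * g := by rw [Embeddings.card, hg]
  have hA := ncard_orth_boundA M hn0 hMn hMc' hcc hfree hcen hcard hmin φ₀
  have hC := ncard_orth_boundC M hn0 hMn hMc' hcc hfree hcen hcard hmin φ₀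
  have h1 : (((orthClassW M c
      (QC.killers (Gal E) (S₀ : Set ((E →+* ℂ) → ℚ)))).ncard : ℕ) : ℝ) ≤
      2 ^ g * bound g (finrank ℚ S₀) (codim φ₀ S₀) (Real.log (QD.galoisOrder E * n : ℕ)) := by
    rw [bound_eq φ₀ ((invariant_iff S₀).2 hS₀.2.1), mul_min_of_nonneg _ _ (by positivity)]
    exact le_min hA hC
  refine le_trans ?_ h1
  rw [Nat.cast_le]
  refine Set.ncard_le_ncard_of_injOn sgn ?_ ?_
    ((GC.finite_oddSigns (X := E →+* ℂ) (fun x => c • x)).subset fun f hf => hf.1)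
  · rintro Φ ⟨hΦ, S, hS, hSW', hsum⟩
    refine ⟨?_, S, ?_, ?_, hsum⟩
    · change OddSign (fun x => c • x) (sgn Φ)
      rw [hfun]
      exact oddSign_sgn hΦ
    · rw [hfun]
      exact (minInv_iff S).2 hS
    · have h3 : QC.classKillers S = QC.classKillers S₀ := by
        rw [← QC.classKillers_component hS, ← QC.classKillers_component hS₀, hSW']
      exact h3
  · intro Φ _ Φ' _ h
    exact sgn_injective h

/-- The types that are degenerate at a component. -/
theorem ncard_at_weight {M : (E →+* ℂ) → ℤ} {n : ℕ} (hn0 : n ≠ 0) (hMn : ∀ φ, M φ ∣ (n : ℤ))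
    (hMc : ∀ φ, M (ComplexEmbedding.conjugate φ) = M φ) {g : ℕ} (hg : finrank ℚ E = 2 * g)
    (φ₀ : E →+* ℂ) {W : Submodule ℚ ((E →+* ℂ) → ℚ)} (hW : W ∈ QC.components E) :
    (({Φ : Set (E →+* ℂ) | IsCMType Φ ∧ ∃ S ∈ minimalSpaces E, QC.component S = W ∧
      OrthW M Φ S}.ncard : ℕ) : ℝ) ≤ 2 ^ g * weight n g φ₀ W := by
  classical
  have hM0 : ∀ φ, M φ ≠ 0 := by
    intro φ h
    have h1 := hMn φ
    rw [h, zero_dvd_iff] at h1
    exact hn0 (by exact_mod_cast h1)
  by_cases hodd : Odd n ∧ ∀ S ∈ minimalSpaces E, S ≤ W → HasOddSum S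
  · rw [weight, if_pos hodd, mul_zero]
    have hMo : ∀ φ, Odd (M φ) := by
      intro φ
      obtain ⟨k, hk⟩ := hMn φ
      have h1 : Odd (M φ * k) := by
        rw [← hk]
        exact_mod_cast hodd.1
      exact (Int.odd_mul.1 h1).1
    have h0 : {Φ : Set (E →+* ℂ) | IsCMType Φ ∧ ∃ S ∈ minimalSpaces E, QC.component S = W ∧
        OrthW M Φ S} = ∅ := by
      rw [Set.eq_empty_iff_forall_notMem]
      rintro Φ ⟨hΦ, S, hS, hSW, horth⟩
      exact not_orthW_of_hasOddSum hMc hMo hS.2.2.1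
        (hodd.2 S hS (hSW ▸ QC.le_component hS)) hΦ horth
    rw [h0, Set.ncard_empty, Nat.cast_zero]
  rw [weight, if_neg hodd]
  by_cases hWm : W ∈ minimalSpaces E
  · rw [if_pos hWm]
    refine le_trans ?_ (ncard_orthW hM0 hMc W hWm.2.1 hWm.2.2.1 hWm.1 hg)
    rw [Nat.cast_le]
    refine Set.ncard_le_ncard ?_ (Set.toFinite _)
    rintro Φ ⟨hΦ, S, hS, hSW, horth⟩
    have h1 : S ≤ W := by
      rw [← hSW]
      exact QC.le_component hS
    rcases hWm.2.2.2 S hS.2.1 h1 with h2 | h2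
    · exact absurd h2 hS.1
    · rw [h2] at horth
      exact ⟨hΦ, horth⟩
  · rw [if_neg hWm, ← div_le_iff₀' (by positivity)]
    refine le_csInf ?_ ?_
    · obtain ⟨S, hS, hSW⟩ := hW
      exact ⟨_, S, hS, (component_eq hS).trans hSW, rfl⟩
    · rintro _ ⟨S, hS, hSW, rfl⟩
      rw [div_le_iff₀' (by positivity), ← hSW, component_eq hS]
      exact ncard_at_le_term hn0 hMn hMc hg φ₀ hS

/-- The types whose sign function with the weights `M` is orthogonal to some minimal space. -/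
def degTypes (M : (E →+* ℂ) → ℤ) : Set (Set (E →+* ℂ)) :=
  {Φ | IsCMType Φ ∧ ∃ S ∈ minimalSpaces E, OrthW M Φ S}

/-- **The number of the degenerate types of a CM field, with weights.** -/
theorem ncard_degTypes_le {M : (E →+* ℂ) → ℤ} {n : ℕ} (hn0 : n ≠ 0) (hMn : ∀ φ, M φ ∣ (n : ℤ))
    (hMc : ∀ φ, M (ComplexEmbedding.conjugate φ) = M φ) {g : ℕ} (hg : finrank ℚ E = 2 * g)
    (φ₀ : E →+* ℂ) : ((degTypes M).ncard : ℝ) ≤ 2 ^ g * rho n g φ₀ := by
  classical
  rw [rho, components_eq]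
  have hfin := QC.finite_components (E := E)
  rw [finsum_mem_eq_finite_toFinset_sum _ hfin, mul_sum]
  have h1 : degTypes M ⊆ ⋃ W ∈ hfin.toFinset, {Φ : Set (E →+* ℂ) | IsCMType Φ ∧
      ∃ S ∈ minimalSpaces E, QC.component S = W ∧ OrthW M Φ S} := by
    rintro Φ ⟨hΦ, S, hS, hmem⟩
    exact Set.mem_biUnion (hfin.mem_toFinset.2 ⟨S, hS, rfl⟩) ⟨hΦ, S, hS, rfl, hmem⟩
  have h2 : (degTypes M).ncard ≤ ∑ W ∈ hfin.toFinset, {Φ : Set (E →+* ℂ) | IsCMType Φ ∧
      ∃ S ∈ minimalSpaces E, QC.component S = W ∧ OrthW M Φ S}.ncard := by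
    refine (Set.ncard_le_ncard h1 (Set.toFinite _)).trans ?_
    exact Finset.set_ncard_biUnion_le _ _
  refine (Nat.cast_le.2 h2).trans ?_
  rw [Nat.cast_sum]
  exact sum_le_sum fun W hW => ncard_at_weight hn0 hMn hMc hg φ₀ (hfin.mem_toFinset.1 hW)

/-- The sum of the weights of the minimal components. -/
theorem sum_weight_le (E : Type*) [Field E] [NumberField E] [IsCMField E]
    (n : ℕ) {g : ℕ} (hg : finrank ℚ E = 2 * g) (φ₀ : E →+* ℂ) :
    ∑ᶠ W ∈ components E, weight n g φ₀ W ≤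
      (if Even (n * g) then (numImagQuadratic E : ℝ) / √g else 0) + 2 * (numSimple E 2 + 1) / g +
        3 * numSimple E 3 / (g * √g) + ∑ᶠ W ∈ multipleComponents E, weight n g φ₀ W := by
  classical
  rw [numSimple_eq, numSimple_eq, multipleComponents_eq, components_eq]
  have hfin := QC.finite_components (E := E)
  have hg0 : 0 < g := by
    have := Module.finrank_pos (R := ℚ) (M := E)
    omega
  set F := hfin.toFinset.filter (fun W => W ∈ minimalSpaces E) with hF
  set F' := hfin.toFinset.filter (fun W => W ∉ minimalSpaces E) with hF'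
  have hmul : QC.multipleComponents E = (F' : Set (Submodule ℚ ((E →+* ℂ) → ℚ))) := by
    ext W
    simp only [QC.multipleComponents, hF', coe_filter, Set.Finite.mem_toFinset,
      Set.mem_ofPred_eq]
  have hFcomp : ∀ W ∈ F, W ∈ QC.components E ∧ W ∈ minimalSpaces E := by
    intro W hW
    rw [hF, mem_filter, hfin.mem_toFinset] at hW
    exact hW
  have hselfF : ∀ W ∈ F, QC.component W = W := by
    intro W hW
    obtain ⟨⟨S, hS, hSW⟩, hWm⟩ := hFcomp W hW
    have h5 : S ≤ W := hSW ▸ QC.le_component hS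
    rcases hWm.2.2.2 S hS.2.1 h5 with h6 | h6
    · exact absurd h6 hS.1
    · rw [h6] at hSW
      exact hSW
  have hsumF : ∑ W ∈ F, finrank ℚ W ≤ g := by
    refine MF.sum_finrank_le (c := ComplexEmbedding.conjugate (K := E)) conj_conj conj_ne F
      (fun W hW => (hFcomp W hW).2.2.2.1) ?_ (by rw [Embeddings.card, hg])
    intro W hW W' hW' hne
    refine QC.orth_of_killers_ne ((minInv_iff W).2 (hFcomp W hW).2)
      ((minInv_iff W').2 (hFcomp W' hW').2) ?_
    intro h
    apply hne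
    rw [← hselfF W hW, ← hselfF W' hW']
    exact QC.component_congr h
  have h5 := sum_counts_le (Even (n * g)) F (fun W => finrank ℚ W)
    (fun W hW => finrank_pos_of_minimal E (hFcomp W hW).2) hg0 hsumF
    (fun W => weight n g φ₀ W)
    (fun W hW => by
      rw [weight, if_pos (hFcomp W hW).2]
      split_ifs
      · positivity
      · exact le_rfl)
    (fun hev W hW hd => by
      have hodd' : Odd n ∧ Odd g := Nat.odd_mul.1 (Nat.not_even_iff_odd.1 hev)
      have hodd := hodd'.2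
      rw [weight, if_pos]
      refine ⟨hodd'.1, ?_⟩
      intro S hS hSW
      rcases (hFcomp W hW).2.2.2.2 S hS.2.1 hSW with h6 | h6
      · exact absurd h6 hS.1
      · rw [h6]
        exact hasOddSum_of_finrank_one (hFcomp W hW).2 hd hg hodd)
  have h6 : ∀ d, ((F.filter (fun W : Submodule ℚ ((E →+* ℂ) → ℚ) => finrank ℚ W = d)).card : ℝ) =
      QC.numSimple E d := by
    intro d
    have h7 : {W ∈ QC.components E | W ∈ minimalSpaces E ∧ finrank ℚ W = d} =
        ((F.filter (fun W : Submodule ℚ ((E →+* ℂ) → ℚ) => finrank ℚ W = d) :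
          Finset (Submodule ℚ ((E →+* ℂ) → ℚ))) : Set (Submodule ℚ ((E →+* ℂ) → ℚ))) := by
      ext W
      simp only [hF, coe_filter, mem_filter, Set.Finite.mem_toFinset,
        Set.mem_ofPred_eq]
      tauto
    unfold QC.numSimple
    rw [h7, Set.ncard_coe_finset]
  rw [h6, h6, h6] at h5
  have h7 : (QC.numSimple E 1 : ℝ) ≤ numImagQuadratic E := by
    exact_mod_cast QC.numSimple_one_le E
  have h8 : (if Even (n * g) then (QC.numSimple E 1 : ℝ) / √g else 0) ≤
      (if Even (n * g) then (numImagQuadratic E : ℝ) / √g else 0) := by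
    split_ifs
    · exact div_le_div_of_nonneg_right h7 (Real.sqrt_nonneg _)
    · exact le_rfl
  have h3 : ∑ᶠ W ∈ QC.components E, weight n g φ₀ W =
      ∑ W ∈ F, weight n g φ₀ W + ∑ W ∈ F', weight n g φ₀ W := by
    rw [finsum_mem_eq_finite_toFinset_sum _ hfin, hF, hF', sum_filter_add_sum_filter_not]
  rw [h3, hmul, finsum_mem_coe_finset]
  linarith

theorem rhoEstimate : RhoEstimate := fun E _ _ _ n g φ₀ hg => sum_weight_le E n hg φ₀

end Pool.Agent.TH170.FW
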