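import Mathlib
import Pool.Agent.TH170.FW.Main
import Pool.Agent.TH170.FF.Free
import Pool.Agent.H977R3.CM.Indep
import Pool.Agent.H977R3.CM.Tower
import Pool.Agent.H204R3.CM.Nondeg
import Pool.Agent.TH170.FF.Main
import Pool.Agent.TH170.QD.Family

/-!
# The slope types of families of CM fields with exceptional Tate classes
-/

set_option linter.unusedSectionVars false
set_option linter.unusedVariables false

namespace Pool.Agent.TH170.FW

open NumberField Finset Module Pool.Agent.H204R3.CM Pool.Agent.H977R3.CM Pool.Agent.TH170.CM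
  Pool.Agent.TH170.MF Pool.Agent.W548.Sh Pool.Agent.W548.Tt

section rel

variable {E : Type*} [Field E] [NumberField E] [IsCMField E]

/-- A nonzero odd relation between the translates gives a minimal space. -/
theorem exists_minimal_of_rel {M : (E →+* ℂ) → ℤ} {Φ : Set (E →+* ℂ)} (b : (E →+* ℂ) → ℤ)
    (hb : b ≠ 0) (hodd : ∀ φ, b (ComplexEmbedding.conjugate φ) = - b φ)
    (hrel : ∀ σ : ℂ ≃+* ℂ, ∑ φ, b φ * (sgn Φ ((σ : ℂ →+* ℂ).comp φ) *
      M ((σ : ℂ →+* ℂ).comp φ)) = 0) : ∃ S ∈ minimalSpaces E, OrthW M Φ S := by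
  classical
  let S₀ : Submodule ℚ ((E →+* ℂ) → ℚ) :=
    { carrier := {u | (∀ φ, u (ComplexEmbedding.conjugate φ) = - u φ) ∧
        ∀ σ : ℂ ≃+* ℂ, ∑ φ, u φ * ((sgn Φ ((σ : ℂ →+* ℂ).comp φ) *
          M ((σ : ℂ →+* ℂ).comp φ) : ℤ) : ℚ) = 0}
      zero_mem' := by
        refine ⟨fun φ => by simp, fun σ => ?_⟩
        simp
      add_mem' := by
        rintro u v ⟨h1, h2⟩ ⟨h3, h4⟩
        refine ⟨fun φ => ?_, fun σ => ?_⟩
        · rw [Pi.add_apply, Pi.add_apply, h1, h3]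
          ring
        · simp only [Pi.add_apply, add_mul, sum_add_distrib]
          rw [h2, h4, add_zero]
      smul_mem' := by
        rintro q u ⟨h1, h2⟩
        refine ⟨fun φ => ?_, fun σ => ?_⟩
        · rw [Pi.smul_apply, Pi.smul_apply, h1, smul_eq_mul, smul_eq_mul]
          ring
        · simp only [Pi.smul_apply, smul_eq_mul, mul_assoc]
          rw [← mul_sum, h2, mul_zero] }
  have hst : IsStable S₀ := by
    rintro τ u ⟨h1, h2⟩
    refine ⟨fun φ => ?_, fun σ => ?_⟩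
    · have h3 : (τ : ℂ →+* ℂ).comp (ComplexEmbedding.conjugate φ) =
          ComplexEmbedding.conjugate ((τ : ℂ →+* ℂ).comp φ) := by
        ext x
        have h4 : ComplexEmbedding.conjugate φ x = φ (IsCMField.complexConj E x) := by
          rw [ComplexEmbedding.conjugate_coe_eq, IsCMField.complexEmbedding_complexConj]
        have h5 : ComplexEmbedding.conjugate ((τ : ℂ →+* ℂ).comp φ) x =
            ((τ : ℂ →+* ℂ).comp φ) (IsCMField.complexConj E x) := by
          rw [ComplexEmbedding.conjugate_coe_eq, IsCMField.complexEmbedding_complexConj]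
        rw [h5, RingHom.comp_apply, h4, RingHom.comp_apply]
      change u ((τ : ℂ →+* ℂ).comp (ComplexEmbedding.conjugate φ)) = - u ((τ : ℂ →+* ℂ).comp φ)
      rw [h3, h1]
    · change ∑ φ, u (permOf E τ φ) * ((sgn Φ ((σ : ℂ →+* ℂ).comp φ) *
          M ((σ : ℂ →+* ℂ).comp φ) : ℤ) : ℚ) = 0
      have h3 := h2 (τ.symm.trans σ)
      rw [← Equiv.sum_comp (permOf E τ)] at h3
      rw [← h3]
      refine sum_congr rfl fun φ _ => ?_
      have h4 : ((τ.symm.trans σ : ℂ ≃+* ℂ) : ℂ →+* ℂ).comp (permOf E τ φ) =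
          (σ : ℂ →+* ℂ).comp φ := by
        ext x
        change σ (τ.symm (τ (φ x))) = σ (φ x)
        rw [RingEquiv.symm_apply_apply]
      rw [h4]
  have hS0 : S₀ ≠ ⊥ := by
    rw [Submodule.ne_bot_iff]
    refine ⟨fun φ => (b φ : ℚ), ⟨fun φ => ?_, fun σ => ?_⟩, ?_⟩
    · change ((b (ComplexEmbedding.conjugate φ) : ℤ) : ℚ) = - (b φ : ℚ)
      rw [hodd]
      push_cast
      rfl
    · have h1 := congrArg (fun z : ℤ => (z : ℚ)) (hrel σ)
      beta_reduce at h1
      rw [Int.cast_zero, Int.cast_sum] at h1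
      rw [← h1]
      exact sum_congr rfl fun φ _ => (Int.cast_mul _ _).symm
    · intro h1
      apply hb
      funext φ
      have h2 : (b φ : ℚ) = 0 := congrFun h1 φ
      exact_mod_cast h2
  have ho : IsOddSpace S₀ := fun s hs => hs.1
  obtain ⟨S, hS, hle⟩ := exists_minInv (G := Gal E) (c := ComplexEmbedding.conjugate (K := E))
    S₀ ((invariant_iff _).2 hst) ho hS0
  refine ⟨S, (minInv_iff S).1 hS, fun s hs => ?_⟩
  have h1 := (hle hs).2 (RingEquiv.refl ℂ)
  rw [← h1]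
  refine sum_congr rfl fun φ _ => ?_
  rw [mul_comm]
  rfl

end rel

section transport

variable {p : ℕ} [Fact p.Prime] {K : Type} [Field K] [NumberField K] [IsCMField K]
  {L : Type} [Field L] [NumberField L]

/-- The embeddings in `L` and the complex embeddings. -/
noncomputable def toC (j : L →+* ℂ) (h : ∀ ψ : K →+* ℂ, ∃ φ : K →+* L, j.comp φ = ψ) :
    (K →+* L) ≃ (K →+* ℂ) :=
  Equiv.ofBijective (fun φ => j.comp φ)
    ⟨fun φ φ' hh => RingHom.ext fun x => j.injective (RingHom.congr_fun hh x), h⟩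

theorem toC_apply (j : L →+* ℂ) (h : ∀ ψ : K →+* ℂ, ∃ φ : K →+* L, j.comp φ = ψ) (φ : K →+* L) :
    toC j h φ = j.comp φ := rfl

theorem toC_cbar (j : L →+* ℂ) (h : ∀ ψ : K →+* ℂ, ∃ φ : K →+* L, j.comp φ = ψ) (φ : K →+* L) :
    toC j h (cbar φ) = ComplexEmbedding.conjugate (toC j h φ) := comp_cbar j φ

theorem symm_conj (j : L →+* ℂ) (h : ∀ ψ : K →+* ℂ, ∃ φ : K →+* L, j.comp φ = ψ)
    (ψ : K →+* ℂ) : (toC j h).symm (ComplexEmbedding.conjugate ψ) = cbar ((toC j h).symm ψ) := by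
  rw [Equiv.symm_apply_eq, toC_cbar, Equiv.apply_symm_apply]

variable [IsGalois ℚ L]

/-- The `p`-adic embedding of a complex embedding. -/
noncomputable def adic (j : L →+* ℂ) (h : ∀ ψ : K →+* ℂ, ∃ φ : K →+* L, j.comp φ = ψ)
    (e : L →ₐ[ℚ] PadicAlgCl p) (ψ : K →+* ℂ) : K →+* PadicAlgCl p :=
  (e : L →+* PadicAlgCl p).comp ((toC j h).symm ψ)

theorem adic_conj (j : L →+* ℂ) (h : ∀ ψ : K →+* ℂ, ∃ φ : K →+* L, j.comp φ = ψ)
    (e : L →ₐ[ℚ] PadicAlgCl p) (ψ : K →+* ℂ) :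
    adic j h e (ComplexEmbedding.conjugate ψ) = cbar (adic j h e ψ) := by
  rw [adic, symm_conj]
  rfl

theorem adic_bijective (j : L →+* ℂ) (h : ∀ ψ : K →+* ℂ, ∃ φ : K →+* L, j.comp φ = ψ)
    (e : L →ₐ[ℚ] PadicAlgCl p) : Function.Bijective (adic j h e) := by
  constructor
  · intro ψ ψ' hh
    apply (toC j h).symm.injective
    ext x
    exact e.injective (RingHom.congr_fun hh x)
  · intro τ
    obtain ⟨φ, hφ⟩ := lift_of (fun _ : Unit => K) j (fun _ => h) e () τ
    refine ⟨toC j h φ, ?_⟩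
    rw [adic, Equiv.symm_apply_apply]
    exact hφ

/-- The complex type of a `p`-adic type. -/
def cType (j : L →+* ℂ) (h : ∀ ψ : K →+* ℂ, ∃ φ : K →+* L, j.comp φ = ψ)
    (e : L →ₐ[ℚ] PadicAlgCl p) (Φ : Set (K →+* PadicAlgCl p)) : Set (K →+* ℂ) :=
  {ψ | adic j h e ψ ∈ Φ}

theorem isCMType_cType (j : L →+* ℂ) (h : ∀ ψ : K →+* ℂ, ∃ φ : K →+* L, j.comp φ = ψ)
    (e : L →ₐ[ℚ] PadicAlgCl p) {Φ : Set (K →+* PadicAlgCl p)} (hΦ : IsPadicType p Φ) :
    IsCMType (cType j h e Φ) := by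
  intro ψ
  change adic j h e ψ ∈ Φ ↔ adic j h e (ComplexEmbedding.conjugate ψ) ∉ Φ
  rw [adic_conj]
  exact hΦ _

theorem cType_injective (j : L →+* ℂ) (h : ∀ ψ : K →+* ℂ, ∃ φ : K →+* L, j.comp φ = ψ)
    (e : L →ₐ[ℚ] PadicAlgCl p) : Function.Injective (cType (p := p) j h e) := by
  intro Φ Φ' hh
  ext τ
  obtain ⟨ψ, rfl⟩ := (adic_bijective j h e).2 τ
  exact Set.ext_iff.1 hh ψ

end transport

section family

variable {I : Type} [Fintype I] {p : ℕ} [Fact p.Prime] {K : I → Type} [∀ i, Field (K i)]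
  [∀ i, NumberField (K i)] [∀ i, IsCMField (K i)]

/-- Families of types without degenerate member have no exceptional Tate classes. -/
theorem tate_of_not_degW {L : Type} [Field L] [NumberField L] [IsGalois ℚ L] (j : L →+* ℂ)
    (hj : ∀ i, ∀ ψ : K i →+* ℂ, ∃ φ : K i →+* L, j.comp φ = ψ) (e : L →ₐ[ℚ] PadicAlgCl p)
    (hind : PairwiseIndep K) {M : ∀ i, (K i →+* PadicAlgCl p) → ℤ}
    (hM : ∀ i τ, M i (cbar τ) = M i τ) (hM0 : ∀ i τ, M i τ ≠ 0)
    {Φ : ∀ i, Set (K i →+* PadicAlgCl p)} (hΦ : ∀ i, IsPadicType p (Φ i))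
    (hnd : ∀ i, cType j (hj i) e (Φ i) ∉ degTypes (fun ψ => M i (adic j (hj i) e ψ)))
    (k : ℕ) (hk : 2 ≤ k) : TateUpTo p K (fun i τ => (M i τ : ℝ)) Φ k := by
  classical
  let X : Type := Σ i, (K i →+* L)
  let S : Finset X := Finset.univ.filter (fun x : X => (e : L →+* PadicAlgCl p).comp x.2 ∈ Φ x.1)
  have hmem : ∀ x : X, x ∈ S ↔ (e : L →+* PadicAlgCl p).comp x.2 ∈ Φ x.1 := fun x => by
    simp only [S, Finset.mem_filter, Finset.mem_univ, true_and]
  refine FF.tateUpTo_of_free p K j hj e k hk (fun i τ => (M i τ : ℝ))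
    (fun i τ => by rw [hM]) (fun i τ => by exact_mod_cast hM0 i τ) Φ hΦ S hmem ?_
  intro n hn x hx y
  by_contra hne
  let inv : X → X := fun z => ⟨z.1, cbar z.2⟩
  have hinv : ∀ z, inv (inv z) = z := by
    rintro ⟨i, φ⟩
    simp only [inv, cbar_cbar]
  let invE : X ≃ X := ⟨inv, inv, hinv, hinv⟩
  let cn : X → ℤ := fun z => ((Finset.univ.filter (fun b => x b = z)).card : ℤ)
  let ε : ∀ i, (K i →+* L) → ℤ := fun i φ =>
    if (e : L →+* PadicAlgCl p).comp φ ∈ Φ i then M i ((e : L →+* PadicAlgCl p).comp φ)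
    else - M i ((e : L →+* PadicAlgCl p).comp φ)
  have hε : ∀ i φ, ε i (cbar φ) = - ε i φ := by
    intro i φ
    have h1 : (e : L →+* PadicAlgCl p).comp (cbar φ) = cbar ((e : L →+* PadicAlgCl p).comp φ) := rfl
    simp only [ε]
    rw [h1, hM]
    by_cases h : (e : L →+* PadicAlgCl p).comp φ ∈ Φ i
    · rw [if_pos h, if_neg ((hΦ i _).1 h)]
    · rw [if_neg h, if_pos, neg_neg]
      rw [hΦ i (cbar _), cbar_cbar]
      exact h
  let c : ∀ i, (K i →+* L) → ℤ := fun i φ => cn ⟨i, φ⟩ - cn ⟨i, cbar φ⟩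
  -- the values of the sign function
  have hws : ∀ z : X, ((ε z.1 z.2 : ℤ) : ℝ) =
      ws (fun z : X => (M z.1 ((e : L →+* PadicAlgCl p).comp z.2) : ℝ)) S z := by
    intro z
    unfold ws
    have h1 : z ∈ S ↔ (e : L →+* PadicAlgCl p).comp z.2 ∈ Φ z.1 := hmem _
    simp only [ε]
    by_cases h2 : (e : L →+* PadicAlgCl p).comp z.2 ∈ Φ z.1
    · rw [if_pos h2, if_pos (h1.2 h2)]
    · rw [if_neg h2, if_neg (fun h3 => h2 (h1.1 h3))]
      push_cast
      rfl
  have hsum : ∀ g : L ≃ₐ[ℚ] L, ∑ z : X, cn z * ε z.1 (g • z.2) = 0 := by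
    intro g
    have h1 := hx g
    have h2 : ((∑ z : X, cn z * ε z.1 (g • z.2) : ℤ) : ℝ) =
        ∑ b, ws (fun z : X => (M z.1 ((e : L →+* PadicAlgCl p).comp z.2) : ℝ)) S (g • x b) := by
      push_cast
      have h3 : ∀ z : X, (cn z : ℝ) * ((ε z.1 (g • z.2) : ℤ) : ℝ) =
          ∑ b, if x b = z then
            ws (fun z : X => (M z.1 ((e : L →+* PadicAlgCl p).comp z.2) : ℝ)) S (g • z) else 0 := by
        intro z
        rw [← Finset.sum_filter, Finset.sum_const, nsmul_eq_mul]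
        simp only [cn, Int.cast_natCast]
        congr 1
        exact hws (g • z)
      rw [Finset.sum_congr rfl (fun z _ => h3 z), Finset.sum_comm]
      refine Finset.sum_congr rfl fun b _ => ?_
      rw [Finset.sum_ite_eq Finset.univ (x b), if_pos (Finset.mem_univ _)]
    have h4 : ((∑ z : X, cn z * ε z.1 (g • z.2) : ℤ) : ℝ) = 0 := by
      rw [h2]
      exact (Finset.sum_congr rfl (fun b _ => FF.ws_inst _ _ _ _ _)).trans h1
    exact_mod_cast h4
  have hrel : ∀ g : L ≃ₐ[ℚ] L, ∑ i, ∑ φ : K i →+* L, c i φ * ε i (g • φ) = 0 := by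
    intro g
    have h1 : ∑ z : X, cn (inv z) * ε z.1 (g • z.2) = 0 := by
      rw [← Equiv.sum_comp invE (fun z : X => cn (inv z) * ε z.1 (g • z.2))]
      have h2 : ∀ z : X, cn (inv (invE z)) * ε (invE z).1 (g • (invE z).2) =
          - (cn z * ε z.1 (g • z.2)) := by
        intro z
        have h3 : inv (invE z) = z := hinv z
        rw [h3]
        have h4 : ε (invE z).1 (g • (invE z).2) = ε z.1 (cbar (g • z.2)) := rfl
        rw [h4, hε]
        ring
      rw [Finset.sum_congr rfl fun z _ => h2 z, Finset.sum_neg_distrib, hsum, neg_zero]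
    have h5 : ∑ z : X, (cn z - cn (inv z)) * ε z.1 (g • z.2) = 0 := by
      rw [Finset.sum_congr rfl fun z _ => sub_mul (cn z) (cn (inv z)) (ε z.1 (g • z.2)),
        Finset.sum_sub_distrib, hsum, h1, sub_zero]
    rw [← h5, ← Finset.univ_sigma_univ, Finset.sum_sigma]
  have hind' : ∀ i (g : L ≃ₐ[ℚ] L), ∑ φ : K i →+* L, c i φ * ε i (g • φ) = 0 := by
    intro i g
    refine indep (G := L ≃ₐ[ℚ] L) (fun i => K i →+* L) (fun i => cbar) ε hε
      (fun g i φ => rfl) ?_ c (fun g => hrel g) i g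
    intro i i' hii φ ψ
    obtain ⟨σ, hσ1, hσ2⟩ := hind i i' hii (j.comp φ) (j.comp ψ)
    obtain ⟨g, hg⟩ := exists_gal j σ
    refine ⟨g, ?_, ?_⟩
    · ext x
      apply j.injective
      rw [emb_smul_apply, ← hg]
      exact hσ1 x
    · ext x
      apply j.injective
      rw [emb_smul_apply, ← hg]
      have h1 := RingHom.congr_fun (comp_cbar j ψ) x
      rw [ComplexEmbedding.conjugate_coe_eq] at h1
      exact (hσ2 x).trans h1.symm
  obtain ⟨i, φ⟩ := y
  apply hnd i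
  refine ⟨isCMType_cType j (hj i) e (hΦ i), exists_minimal_of_rel
    (fun ψ => c i ((toC j (hj i)).symm ψ)) ?_ ?_ ?_⟩
  · intro h0
    apply hne
    have h2 := congrFun h0 (toC j (hj i) φ)
    simp only [Equiv.symm_apply_apply, Pi.zero_apply, c, cn, sub_eq_zero] at h2
    have h3 := Nat.cast_injective (R := ℤ) h2
    exact (FF.card_filter_inst _ _ _).trans (h3.trans (FF.card_filter_inst _ _ _))
  · intro ψ
    rw [symm_conj]
    simp only [c]
    rw [cbar_cbar]
    ring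
  · intro σ
    obtain ⟨g, hg⟩ := exists_gal j σ
    rw [← hind' i g]
    refine (Fintype.sum_equiv (toC j (hj i)) _ _ fun φ => ?_).symm
    rw [Equiv.symm_apply_apply]
    have h2 : (σ : ℂ →+* ℂ).comp (toC j (hj i) φ) = toC j (hj i) (g • φ) := by
      ext y
      exact hg (φ y)
    rw [h2]
    congr 1
    unfold CM.sgn
    have h3 : adic j (hj i) e (toC j (hj i) (g • φ)) = (e : L →+* PadicAlgCl p).comp (g • φ) := by
      rw [adic, Equiv.symm_apply_apply]
    have h4 : toC j (hj i) (g • φ) ∈ cType j (hj i) e (Φ i) ↔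
        (e : L →+* PadicAlgCl p).comp (g • φ) ∈ Φ i := by
      rw [← h3]
      rfl
    simp only [ε]
    rw [h3]
    by_cases h5 : (e : L →+* PadicAlgCl p).comp (g • φ) ∈ Φ i
    · rw [if_pos h5, if_pos (h4.2 h5), one_mul]
    · rw [if_neg h5, if_neg (fun h6 => h5 (h4.1 h6)), neg_one_mul]

end family

end Pool.Agent.TH170.FW
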