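import Mathlib
import Pool.Agent.TH170.FW.Bridge

/-!
# The number of the families of slope types with exceptional Tate classes
-/

set_option linter.unusedSectionVars false
set_option linter.unusedVariables false

namespace Pool.Agent.TH170.FW

open NumberField Finset Module Pool.Agent.H204R3.CM Pool.Agent.H977R3.CM Pool.Agent.TH170.CM
  Pool.Agent.TH170.MF Pool.Agent.W548.Tt

/-- A property of the families of types that are not degenerate fails for few families. -/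
theorem ncard_families_gen {ι : Type*} [Fintype ι] (E : ι → Type*) [∀ i, Field (E i)]
    [∀ i, NumberField (E i)] [∀ i, IsCMField (E i)] {g : ι → ℕ}
    (hg : ∀ i, finrank ℚ (E i) = 2 * g i) (bad : ∀ i, Set (Set (E i →+* ℂ))) (ρ : ι → ℝ)
    (hbad : ∀ i, ∀ Φ ∈ bad i, IsCMType Φ) (hρ : ∀ i, ((bad i).ncard : ℝ) ≤ 2 ^ g i * ρ i)
    (P : (∀ i, Set (E i →+* ℂ)) → Prop)
    (hP : ∀ Φ : ∀ i, Set (E i →+* ℂ), (∀ i, IsCMType (Φ i)) → (∀ i, Φ i ∉ bad i) → P Φ) :
    (({Φ : ∀ i, Set (E i →+* ℂ) | (∀ i, IsCMType (Φ i)) ∧ ¬ P Φ}.ncard : ℕ) : ℝ) ≤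
      2 ^ (∑ i, g i) * ∑ i, ρ i := by
  classical
  let A : ∀ i, Finset (Set (E i →+* ℂ)) := fun i => univ.filter (fun Φ => IsCMType Φ)
  let B : ∀ i, Finset (Set (E i →+* ℂ)) :=
    fun i => univ.filter (fun Φ => Φ ∈ bad i)
  have hA : ∀ i, (A i).card = 2 ^ g i := by
    intro i
    rw [← QD.ncard_cmTypes (E i) (hg i), ← Set.ncard_coe_finset]
    congr 1
    ext Φ
    simp only [A, coe_filter, mem_univ, true_and, Set.mem_ofPred_eq]
  have hB : ∀ i, ((B i).card : ℝ) ≤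
      2 ^ g i * ρ i := by
    intro i
    have h1 := hρ i
    have h2 : (bad i).ncard = (B i).card := by
      rw [← Set.ncard_coe_finset]
      congr 1
      ext Φ
      simp only [B, coe_filter, mem_univ, true_and, Set.mem_ofPred_eq]
    rw [h2] at h1
    exact h1
  let C : ι → Finset (∀ i, Set (E i →+* ℂ)) := fun i =>
    Fintype.piFinset (Function.update A i (B i))
  have hsub : {Φ : ∀ i, Set (E i →+* ℂ) | (∀ i, IsCMType (Φ i)) ∧ ¬ P Φ} ⊆
      ((univ.biUnion C : Finset (∀ i, Set (E i →+* ℂ))) : Set (∀ i, Set (E i →+* ℂ))) := by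
    rintro Φ ⟨h1, h2⟩
    rw [mem_coe, mem_biUnion]
    by_contra h3
    apply h2
    refine hP Φ h1 fun i hi => h3 ⟨i, mem_univ i, ?_⟩
    rw [Fintype.mem_piFinset]
    intro k
    by_cases hk : k = i
    · subst hk
      rw [Function.update_self]
      exact mem_filter.2 ⟨mem_univ _, hi⟩
    · rw [Function.update_of_ne hk]
      exact mem_filter.2 ⟨mem_univ _, h1 k⟩
  have hcard : ∀ i, ((C i).card : ℝ) ≤
      2 ^ (∑ i, g i) * ρ i := by
    intro i
    have h1 : (C i).card = (B i).card * ∏ k ∈ univ.erase i, 2 ^ g k := by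
      rw [Fintype.card_piFinset, ← mul_prod_erase univ _ (mem_univ i), Function.update_self]
      congr 1
      refine prod_congr rfl fun k hk => ?_
      rw [Function.update_of_ne (ne_of_mem_erase hk), hA]
    have h2 : (2 : ℝ) ^ (∑ i, g i) = 2 ^ g i * ∏ k ∈ univ.erase i, (2 : ℝ) ^ g k := by
      rw [← prod_pow_eq_pow_sum, ← mul_prod_erase univ _ (mem_univ i)]
    rw [h1, h2, Nat.cast_mul, Nat.cast_prod]
    simp only [Nat.cast_pow, Nat.cast_ofNat]
    have h3 : (0 : ℝ) ≤ ∏ k ∈ univ.erase i, (2 : ℝ) ^ g k := by positivity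
    calc ((B i).card : ℝ) * ∏ k ∈ univ.erase i, (2 : ℝ) ^ g k ≤
        (2 ^ g i * ρ i) *
          ∏ k ∈ univ.erase i, (2 : ℝ) ^ g k := mul_le_mul_of_nonneg_right (hB i) h3
      _ = _ := by ring
  have h4 : {Φ : ∀ i, Set (E i →+* ℂ) | (∀ i, IsCMType (Φ i)) ∧ ¬ P Φ}.ncard ≤
      ∑ i, (C i).card := by
    refine (Set.ncard_le_ncard hsub (Finset.finite_toSet _)).trans ?_
    rw [Set.ncard_coe_finset]
    exact card_biUnion_le
  calc (({Φ : ∀ i, Set (E i →+* ℂ) | (∀ i, IsCMType (Φ i)) ∧ ¬ P Φ}.ncard : ℕ) : ℝ) ≤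
      ((∑ i, (C i).card : ℕ) : ℝ) := Nat.cast_le.2 h4
    _ = ∑ i, ((C i).card : ℝ) := by rw [Nat.cast_sum]
    _ ≤ ∑ i, 2 ^ (∑ i, g i) * ρ i :=
        sum_le_sum fun i _ => hcard i
    _ = _ := by rw [mul_sum]


/-- The families of `p`-adic types `Φ i` of the fields `K i` such that, for the weights `M i`, some
Tate class (in any number of variables) is not generated by pairings. -/
def exceptionalFamilies (p : ℕ) [Fact p.Prime] {I : Type} [Fintype I] (K : I → Type)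
    [∀ i, Field (K i)] [∀ i, NumberField (K i)] [∀ i, IsCMField (K i)]
    (M : ∀ i, (K i →+* PadicAlgCl p) → ℤ) : Set (∀ i, Set (K i →+* PadicAlgCl p)) :=
  {Φ | (∀ i, IsPadicType p (Φ i)) ∧ ¬ ∀ k, TateUpTo p K (fun i τ => (M i τ : ℝ)) Φ k}

theorem ncard_exceptionalFamilies_le (p : ℕ) [Fact p.Prime] {I : Type} [Fintype I] (K : I → Type)
    [∀ i, Field (K i)] [∀ i, NumberField (K i)] [∀ i, IsCMField (K i)]
    (M : ∀ i, (K i →+* PadicAlgCl p) → ℤ) (n g : I → ℕ) (φ₀ : ∀ i, K i →+* ℂ)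
    (hind : PairwiseIndep K) (hM : ∀ i τ, M i (cbar τ) = M i τ) (hn : ∀ i, n i ≠ 0)
    (hMn : ∀ i τ, M i τ ∣ (n i : ℤ)) (hg : ∀ i, finrank ℚ (K i) = 2 * g i) :
    ((exceptionalFamilies p K M).ncard : ℝ) ≤ 2 ^ (∑ i, g i) * ∑ i, rho (n i) (g i) (φ₀ i) := by
  classical
  obtain ⟨L, _, _, j, hj⟩ := exists_galois K
  let e : L →ₐ[ℚ] PadicAlgCl p := IsAlgClosed.lift
  have hM0 : ∀ i τ, M i τ ≠ 0 := by
    intro i τ h
    have h1 := hMn i τ
    rw [h, zero_dvd_iff] at h1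
    exact hn i (by exact_mod_cast h1)
  have h1 := ncard_families_gen K hg (fun i => degTypes (fun ψ => M i (adic j (hj i) e ψ)))
    (fun i => rho (n i) (g i) (φ₀ i)) (fun i Φ hΦ => hΦ.1)
    (fun i => ncard_degTypes_le (hn i) (fun ψ => hMn i _)
      (fun ψ => by rw [adic_conj, hM]) (hg i) (φ₀ i))
    (fun Ψ => ∀ i, Ψ i ∉ degTypes (fun ψ => M i (adic j (hj i) e ψ))) (fun Ψ _ h => h)
  refine le_trans ?_ h1
  rw [Nat.cast_le]
  refine Set.ncard_le_ncard_of_injOn (fun Φ i => cType j (hj i) e (Φ i)) ?_ ?_ (Set.toFinite _)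
  · rintro Φ ⟨hΦ, hnot⟩
    refine ⟨fun i => isCMType_cType j (hj i) e (hΦ i), fun hnd => hnot fun k => ?_⟩
    have h2 := tate_of_not_degW j hj e hind hM hM0 hΦ hnd (max k 2) (le_max_right k 2)
    intro m π κ hκ hweil hslope Ω _ _ _ V _ _ _ F hF n t s c hn'
    exact h2 m π κ hκ hweil hslope Ω V F hF n t s c (hn'.trans (le_max_left k 2))
  · intro Φ _ Φ' _ h
    funext i
    exact cType_injective j (hj i) e (congrFun h i)

end Pool.Agent.TH170.FW
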